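import Mathlib
import Pool.Agent.H599R2.Ram.ES

namespace Pool.Agent.Results.MP_28724c_co.BipartiteCore

open SimpleGraph Finset
open Pool.Agent.H599R2.Ram

/-! ### Product of a clique and an independent set -/

/-- `U` contains a clique and an independent set the product of whose sizes is at least `F` -/
def HasProd {V : Type} (G : SimpleGraph V) (U : Finset V) (F : ℝ) : Prop :=
  ∃ R ⊆ U, ∃ S ⊆ U, G.IsClique R ∧ G.IsIndepSet S ∧ F ≤ (R.card : ℝ) * S.card

theorem HasProd.compl {V : Type} {G : SimpleGraph V} {U : Finset V} {F : ℝ}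
    (h : HasProd Gᶜ U F) : HasProd G U F := by
  obtain ⟨R, hR, S, hS, hcR, hcS, hF⟩ := h
  exact ⟨S, hS, R, hR, by simpa using hcS, by simpa using hcR, by rw [mul_comm]; exact hF⟩

theorem HasProd.to_compl {V : Type} {G : SimpleGraph V} {U : Finset V} {F : ℝ}
    (h : HasProd G U F) : HasProd Gᶜ U F := by
  obtain ⟨R, hR, S, hS, hcR, hcS, hF⟩ := h
  exact ⟨S, hS, R, hR, by simpa using hcS, by simpa using hcR, by rw [mul_comm]; exact hF⟩

theorem HasProd.mono {V : Type} {G : SimpleGraph V} {U W : Finset V} {F E : ℝ}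
    (h : HasProd G U F) (hU : U ⊆ W) (hE : E ≤ F) : HasProd G W E := by
  obtain ⟨R, hR, S, hS, hcR, hcS, hF⟩ := h
  exact ⟨R, hR.trans hU, S, hS.trans hU, hcR, hcS, hE.trans hF⟩

theorem clique_lt {V : Type} {G : SimpleGraph V} {k : ℕ} (hk : G.CliqueFree k) {R : Finset V}
    (hR : G.IsClique R) : R.card < k := by
  by_contra h
  obtain ⟨T, hT, hc⟩ := Finset.exists_subset_card_eq (not_lt.mp h)
  exact hk T ⟨hR.subset (by exact_mod_cast hT), hc⟩

theorem two_rpow_ge (f : ℕ) : 1 + (1 : ℝ) / 2 ^ f ≤ 2 ^ ((2 : ℝ) / 2 ^ f) := by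
  have he : (0 : ℝ) < 2 ^ f := by positivity
  have h6 : 1 + (1 : ℝ) / 2 ^ f ≤ Real.exp (1 / 2 ^ f) := by
    have := Real.add_one_le_exp ((1 : ℝ) / 2 ^ f); linarith
  have h7 : Real.exp (1 / 2 ^ f) ≤ 2 ^ ((2 : ℝ) / 2 ^ f) := by
    rw [Real.rpow_def_of_pos (by norm_num)]
    apply Real.exp_le_exp.mpr
    have hlog : (1 : ℝ) / 2 ≤ Real.log 2 := by
      have := Real.log_two_gt_d9; linarith
    have : Real.log 2 * (2 / 2 ^ f) = (2 * Real.log 2) / 2 ^ f := by ring
    rw [this]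
    exact div_le_div_of_nonneg_right (by linarith) he.le
  exact h6.trans h7

/-- the number of subsets of `R` with at most `|R| / 2^f` elements -/
theorem card_small_subsets {V : Type} [DecidableEq V] (R : Finset V) (f : ℕ) :
    ((R.powerset.filter (fun P => 2 ^ f * P.card ≤ R.card)).card : ℝ) ≤
      2 ^ ((R.card : ℝ) * ((f + 2) / 2 ^ f)) := by
  have hf0 : (0 : ℝ) < 2 ^ f := by positivity
  have h := Finset.sum_pow_mul_eq_add_pow ((1 : ℝ) / 2 ^ f) 1 R
  have h1 : ∑ t ∈ R.powerset.filter (fun P => 2 ^ f * P.card ≤ R.card),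
      ((1 : ℝ) / 2 ^ f) ^ t.card ≤ (1 / 2 ^ f + 1) ^ R.card := by
    rw [← h]
    refine (Finset.sum_le_sum_of_subset_of_nonneg (Finset.filter_subset _ _)
      (fun _ _ _ => by positivity)).trans (le_of_eq ?_)
    simp
  have h2 : ∀ t ∈ R.powerset.filter (fun P => 2 ^ f * P.card ≤ R.card),
      (2 : ℝ) ^ (-((f : ℝ) * (R.card / 2 ^ f))) ≤ ((1 : ℝ) / 2 ^ f) ^ t.card := by
    intro t ht
    have ht' := (Finset.mem_filter.mp ht).2
    have ht2 : (2 : ℝ) ^ f * t.card ≤ R.card := by exact_mod_cast ht'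
    have ht3 : (t.card : ℝ) ≤ R.card / 2 ^ f := by rw [le_div_iff₀ hf0]; linarith
    have h3 : ((1 : ℝ) / 2 ^ f) ^ t.card = 2 ^ (-((f : ℝ) * t.card)) := by
      rw [Real.rpow_neg (by norm_num), Real.rpow_mul (by norm_num), Real.rpow_natCast,
        Real.rpow_natCast, one_div, inv_pow]
    rw [h3]
    apply Real.rpow_le_rpow_of_exponent_le (by norm_num)
    have := mul_le_mul_of_nonneg_left ht3 (Nat.cast_nonneg (α := ℝ) f)
    linarith
  have h3 := Finset.card_nsmul_le_sum _ _ _ h2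
  rw [nsmul_eq_mul] at h3
  have h4 := h3.trans h1
  have h5 : ((1 : ℝ) / 2 ^ f + 1) ^ R.card ≤ 2 ^ ((R.card : ℝ) * (2 / 2 ^ f)) := by
    rw [mul_comm (R.card : ℝ), Real.rpow_mul (by norm_num), Real.rpow_natCast]
    exact pow_le_pow_left₀ (by positivity) (by have := two_rpow_ge f; linarith) _
  have h6 := h4.trans h5
  have h7 : (2 : ℝ) ^ ((R.card : ℝ) * ((f + 2) / 2 ^ f)) =
      2 ^ ((R.card : ℝ) * (2 / 2 ^ f)) * 2 ^ ((f : ℝ) * (R.card / 2 ^ f)) := by
    rw [← Real.rpow_add (by norm_num)]; congr 1; ring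
  rw [h7]
  have h8 : (0 : ℝ) < 2 ^ ((f : ℝ) * (R.card / 2 ^ f)) := by positivity
  rw [Real.rpow_neg (by norm_num), ← div_eq_mul_inv, div_le_iff₀ h8] at h6
  exact h6

/-! ### One step of the recursion -/

section Step

variable {V : Type} [DecidableEq V] (G : SimpleGraph V) [DecidableRel G.Adj]

/-- indicator of non-adjacency -/
def w (x y : V) : ℕ := if G.Adj x y then 0 else 1

omit [DecidableEq V] in
theorem w_sum_filter (R : Finset V) (y : V) :
    ∑ x ∈ R, w G x y = (R.filter (fun x => ¬ G.Adj x y)).card := by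
  rw [Finset.card_filter]
  refine Finset.sum_congr rfl fun x _ => ?_
  unfold w
  by_cases h : G.Adj x y <;> simp [h]

theorem step (f k : ℕ) (hk : G.CliqueFree k) (A B : Finset V) (hAB : Disjoint A B)
    (hB : B.Nonempty)
    (hdens : 2 ^ (f + 2) * ∑ x ∈ A, ∑ y ∈ B, w G x y < A.card * B.card)
    (FA FB : ℝ) (hFA : 0 < FA)
    (hAs : ∀ A' ⊆ A, A.card ≤ 2 * A'.card → HasProd G A' FA)
    (hBs : ∀ B' ⊆ B, (B.card : ℝ) ≤ 2 * 2 ^ ((k : ℝ) * ((f + 2) / 2 ^ f)) * B'.card →
      HasProd G B' FB) :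
    HasProd G (A ∪ B) ((1 - 1 / 2 ^ f) * FA + FB) := by
  classical
  have hBpos : 0 < B.card := hB.card_pos
  set A' := A.filter (fun x => 2 ^ (f + 1) * ∑ y ∈ B, w G x y < B.card) with hA'
  set Ac := A.filter (fun x => ¬ 2 ^ (f + 1) * ∑ y ∈ B, w G x y < B.card) with hAc
  have hsplit : A'.card + Ac.card = A.card := Finset.card_filter_add_card_filter_not _
  have hAcle : 2 * Ac.card ≤ A.card := by
    by_contra hcon
    have h1 : Ac.card * B.card ≤ ∑ x ∈ Ac, 2 ^ (f + 1) * ∑ y ∈ B, w G x y := by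
      rw [← smul_eq_mul]
      exact Finset.card_nsmul_le_sum _ _ _ fun x hx => not_lt.mp (Finset.mem_filter.mp hx).2
    have h2 : ∑ x ∈ Ac, 2 ^ (f + 1) * ∑ y ∈ B, w G x y ≤
        2 ^ (f + 1) * ∑ x ∈ A, ∑ y ∈ B, w G x y := by
      rw [Finset.mul_sum]
      exact Finset.sum_le_sum_of_subset (Finset.filter_subset _ _)
    have h3 : 2 ^ (f + 2) * ∑ x ∈ A, ∑ y ∈ B, w G x y =
        2 * (2 ^ (f + 1) * ∑ x ∈ A, ∑ y ∈ B, w G x y) := by ring
    have h4 : A.card * B.card ≤ (2 * Ac.card) * B.card :=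
      Nat.mul_le_mul_right _ (by omega)
    have h5 : (2 * Ac.card) * B.card = 2 * (Ac.card * B.card) := by ring
    omega
  obtain ⟨RA, hRA, SA, hSA, hRAc, hSAc, hFAle⟩ := hAs A' (Finset.filter_subset _ _) (by omega)
  have hr : 0 < RA.card := by
    rcases Nat.eq_zero_or_pos RA.card with h0 | h0
    · rw [h0] at hFAle; norm_num at hFAle; linarith
    · exact h0
  have hrk : RA.card < k := clique_lt hk hRAc
  have hT : 2 ^ (f + 1) * ∑ y ∈ B, ∑ x ∈ RA, w G x y ≤ RA.card * B.card := by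
    rw [Finset.sum_comm, Finset.mul_sum, ← smul_eq_mul RA.card]
    exact Finset.sum_le_card_nsmul _ _ _ fun x hx => (Finset.mem_filter.mp (hRA hx)).2.le
  set B1 := B.filter (fun y => 2 ^ f * ∑ x ∈ RA, w G x y ≤ RA.card) with hB1
  set Bc := B.filter (fun y => ¬ 2 ^ f * ∑ x ∈ RA, w G x y ≤ RA.card) with hBc
  have hsplitB : B1.card + Bc.card = B.card := Finset.card_filter_add_card_filter_not _
  have hBcle : 2 * Bc.card ≤ B.card := by
    have h1 : Bc.card * RA.card ≤ ∑ y ∈ Bc, 2 ^ f * ∑ x ∈ RA, w G x y := by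
      rw [← smul_eq_mul]
      exact Finset.card_nsmul_le_sum _ _ _ fun x hx => (not_le.mp (Finset.mem_filter.mp hx).2).le
    have h2 : ∑ y ∈ Bc, 2 ^ f * ∑ x ∈ RA, w G x y ≤
        2 ^ f * ∑ y ∈ B, ∑ x ∈ RA, w G x y := by
      rw [Finset.mul_sum]
      exact Finset.sum_le_sum_of_subset (Finset.filter_subset _ _)
    have h3 : 2 ^ (f + 1) * ∑ y ∈ B, ∑ x ∈ RA, w G x y =
        2 * (2 ^ f * ∑ y ∈ B, ∑ x ∈ RA, w G x y) := by ring
    have h4 : RA.card * (2 * Bc.card) ≤ RA.card * B.card := by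
      calc RA.card * (2 * Bc.card) = 2 * (Bc.card * RA.card) := by ring
        _ ≤ _ := by omega
    exact Nat.le_of_mul_le_mul_left h4 hr
  have hB1pos : 0 < B1.card := by omega
  set T := RA.powerset.filter (fun P => 2 ^ f * P.card ≤ RA.card) with hTdef
  have hTne : T.Nonempty := ⟨∅, by simp [hTdef]⟩
  have hmaps : ∀ y ∈ B1, RA.filter (fun x => ¬ G.Adj x y) ∈ T := by
    intro y hy
    refine Finset.mem_filter.mpr ⟨Finset.mem_powerset.mpr (Finset.filter_subset _ _), ?_⟩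
    rw [← w_sum_filter]
    exact (Finset.mem_filter.mp hy).2
  have hTpos : (0 : ℝ) < T.card := by exact_mod_cast hTne.card_pos
  obtain ⟨P, hPT, hP⟩ := Finset.exists_le_card_fiber_of_nsmul_le_card_of_maps_to
    (b := (B1.card : ℝ) / T.card) hmaps hTne (by
      rw [nsmul_eq_mul, mul_div_cancel₀ _ hTpos.ne'])
  set B' := B1.filter (fun y => RA.filter (fun x => ¬ G.Adj x y) = P) with hB'
  have hTle : (T.card : ℝ) ≤ 2 ^ ((k : ℝ) * ((f + 2) / 2 ^ f)) := by
    refine (card_small_subsets RA f).trans ?_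
    apply Real.rpow_le_rpow_of_exponent_le (by norm_num)
    apply mul_le_mul_of_nonneg_right _ (by positivity)
    exact_mod_cast hrk.le
  have hB'ge : (B.card : ℝ) ≤ 2 * 2 ^ ((k : ℝ) * ((f + 2) / 2 ^ f)) * B'.card := by
    rw [div_le_iff₀ hTpos] at hP
    have h1 : (B.card : ℝ) ≤ 2 * B1.card := by
      have : B.card ≤ 2 * B1.card := by omega
      exact_mod_cast this
    have h2 : (B'.card : ℝ) * T.card ≤ B'.card * 2 ^ ((k : ℝ) * ((f + 2) / 2 ^ f)) :=
      mul_le_mul_of_nonneg_left hTle (Nat.cast_nonneg _)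
    linarith
  obtain ⟨RB, hRB, SB, hSB, hRBc, hSBc, hFBle⟩ := hBs B'
    ((Finset.filter_subset _ _).trans (Finset.filter_subset _ _)) hB'ge
  have hRAA : RA ⊆ A := hRA.trans (Finset.filter_subset _ _)
  have hRBB : RB ⊆ B := hRB.trans ((Finset.filter_subset _ _).trans (Finset.filter_subset _ _))
  have hSAA : SA ⊆ A := hSA.trans (Finset.filter_subset _ _)
  have hSBB : SB ⊆ B := hSB.trans ((Finset.filter_subset _ _).trans (Finset.filter_subset _ _))
  have hPsub : P ⊆ RA := Finset.mem_powerset.mp (Finset.mem_filter.mp hPT).1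
  have hPcard : 2 ^ f * P.card ≤ RA.card := (Finset.mem_filter.mp hPT).2
  have hadj : ∀ x ∈ RA \ P, ∀ y ∈ RB, G.Adj x y := by
    intro x hx y hy
    have hy' := (Finset.mem_filter.mp (hRB hy)).2
    by_contra hn
    have : x ∈ P := by
      rw [← hy']
      exact Finset.mem_filter.mpr ⟨(Finset.mem_sdiff.mp hx).1, hn⟩
    exact (Finset.mem_sdiff.mp hx).2 this
  have hclique : G.IsClique ((RA \ P ∪ RB : Finset V) : Set V) := by
    intro x hx y hy hxy
    rw [Finset.mem_coe, Finset.mem_union] at hx hy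
    rcases hx with hx | hx <;> rcases hy with hy | hy
    · exact hRAc (Finset.mem_coe.mpr (Finset.mem_sdiff.mp hx).1)
        (Finset.mem_coe.mpr (Finset.mem_sdiff.mp hy).1) hxy
    · exact hadj x hx y hy
    · exact (hadj y hy x hx).symm
    · exact hRBc (Finset.mem_coe.mpr hx) (Finset.mem_coe.mpr hy) hxy
  have hdisj : Disjoint (RA \ P) RB :=
    Finset.disjoint_of_subset_left (Finset.sdiff_subset.trans hRAA)
      (Finset.disjoint_of_subset_right hRBB hAB)
  have hcardR : ((RA \ P ∪ RB).card : ℝ) = RA.card - P.card + RB.card := by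
    rw [Finset.card_union_of_disjoint hdisj, Nat.cast_add, Finset.cast_card_sdiff hPsub]
  have hf0 : (0 : ℝ) < 2 ^ f := by positivity
  have hf1 : (1 : ℝ) ≤ 2 ^ f := one_le_pow₀ (by norm_num)
  have hPr : (P.card : ℝ) ≤ RA.card / 2 ^ f := by
    rw [le_div_iff₀ hf0]
    have : (2 : ℝ) ^ f * P.card ≤ RA.card := by exact_mod_cast hPcard
    linarith
  have hfrac : (0 : ℝ) ≤ 1 - 1 / 2 ^ f := by
    have : (1 : ℝ) / 2 ^ f ≤ 1 := by rw [div_le_one hf0]; exact hf1
    linarith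
  have hcardR' : (1 - 1 / 2 ^ f) * (RA.card : ℝ) + RB.card ≤ ((RA \ P ∪ RB).card : ℝ) := by
    rw [hcardR]
    have : (1 - 1 / 2 ^ f) * (RA.card : ℝ) = RA.card - RA.card / 2 ^ f := by ring
    rw [this]; linarith
  have key : ∀ S : Finset V, SA.card ≤ S.card → SB.card ≤ S.card →
      (1 - 1 / 2 ^ f) * FA + FB ≤ ((RA \ P ∪ RB).card : ℝ) * S.card := by
    intro S h1 h2
    have h1' : (SA.card : ℝ) ≤ S.card := by exact_mod_cast h1
    have h2' : (SB.card : ℝ) ≤ S.card := by exact_mod_cast h2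
    calc (1 - 1 / 2 ^ f) * FA + FB ≤
        (1 - 1 / 2 ^ f) * ((RA.card : ℝ) * SA.card) + (RB.card : ℝ) * SB.card :=
          add_le_add (mul_le_mul_of_nonneg_left hFAle hfrac) hFBle
      _ ≤ (1 - 1 / 2 ^ f) * ((RA.card : ℝ) * S.card) + (RB.card : ℝ) * S.card :=
          add_le_add (mul_le_mul_of_nonneg_left
            (mul_le_mul_of_nonneg_left h1' (Nat.cast_nonneg _)) hfrac)
            (mul_le_mul_of_nonneg_left h2' (Nat.cast_nonneg _))
      _ = ((1 - 1 / 2 ^ f) * (RA.card : ℝ) + RB.card) * S.card := by ring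
      _ ≤ _ := mul_le_mul_of_nonneg_right hcardR' (Nat.cast_nonneg _)
  have hRsub : RA \ P ∪ RB ⊆ A ∪ B :=
    Finset.union_subset_union (Finset.sdiff_subset.trans hRAA) hRBB
  rcases le_total SA.card SB.card with hle | hle
  · exact ⟨_, hRsub, SB, hSBB.trans Finset.subset_union_right, hclique, hSBc, key SB hle le_rfl⟩
  · exact ⟨_, hRsub, SA, hSAA.trans Finset.subset_union_left, hclique, hSAc, key SA le_rfl hle⟩

end Step


/-! ### Sampling -/

section Sampling

variable {V : Type} [DecidableEq V] (G : SimpleGraph V) [DecidableRel G.Adj]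

omit [DecidableEq V] in
theorem w_le_one (x y : V) : w G x y ≤ 1 := by
  unfold w; split_ifs <;> simp

omit [DecidableEq V] in
theorem w_symm (x y : V) : w G x y = w G y x := by
  unfold w; simp [G.adj_comm]

omit [DecidableEq V] in
theorem moment (W : Finset V) (s : ℕ) (z c : ℝ) (y : V)
    (hz : ∀ x, z ^ w G x y = 1 + c * w G x y) :
    ∑ X ∈ Fintype.piFinset (fun _ : Fin s => W), z ^ (∑ i, w G (X i) y) =
      (W.card + c * (∑ x ∈ W, w G x y : ℕ)) ^ s := by
  have h1 : ∀ X : Fin s → V, z ^ (∑ i, w G (X i) y) = ∏ i, z ^ w G (X i) y := fun X =>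
    (Finset.prod_pow_eq_pow_sum _ _ _).symm
  simp_rw [h1]
  rw [Finset.sum_prod_piFinset W (fun _ x => z ^ w G x y)]
  simp only [Finset.prod_const, Finset.card_univ, Fintype.card_fin]
  congr 1
  rw [Finset.sum_congr rfl fun x _ => hz x, Finset.sum_add_distrib, ← Finset.mul_sum]
  simp

theorem sample (W U : Finset V) (hW : W.Nonempty) (a h : ℕ) (ha : 2 ≤ a)
    (hU : 2 * (U.card : ℝ) < (4 / 3) ^ h) :
    ∃ X : Fin (a * h) → V, (∀ i, X i ∈ W) ∧ ∀ y ∈ U,
      (a * ∑ x ∈ W, w G x y ≤ W.card → ∑ i, w G (X i) y ≤ 2 * h) ∧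
      (∑ i, w G (X i) y ≤ 2 * h → a * ∑ x ∈ W, w G x y ≤ 4 * W.card) := by
  classical
  set Ω := Fintype.piFinset (fun _ : Fin (a * h) => W) with hΩ
  have hWpos : (0 : ℝ) < W.card := by exact_mod_cast hW.card_pos
  have hapos : (0 : ℝ) < a := by exact_mod_cast (by omega : 0 < a)
  have ha2 : (2 : ℝ) ≤ a := by exact_mod_cast ha
  have hΩc : (Ω.card : ℝ) = (W.card : ℝ) ^ (a * h) := by
    rw [hΩ, Fintype.card_piFinset]; simp
  -- the two kinds of failure
  have hB1 : ∀ y, ((Ω.filter (fun X => a * ∑ x ∈ W, w G x y ≤ W.card ∧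
      2 * h < ∑ i, w G (X i) y)).card : ℝ) ≤ (W.card : ℝ) ^ (a * h) * (3 / 4) ^ h := by
    intro y
    by_cases hy : a * ∑ x ∈ W, w G x y ≤ W.card
    · have h1 : ((Ω.filter (fun X => a * ∑ x ∈ W, w G x y ≤ W.card ∧
          2 * h < ∑ i, w G (X i) y)).card : ℝ) * 4 ^ h ≤
          ∑ X ∈ Ω, (2 : ℝ) ^ (∑ i, w G (X i) y) := by
        rw [← nsmul_eq_mul]
        refine (Finset.card_nsmul_le_sum _ (fun X => (2 : ℝ) ^ (∑ i, w G (X i) y)) _ ?_).trans
          (Finset.sum_le_sum_of_subset_of_nonneg (Finset.filter_subset _ _)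
            (fun _ _ _ => by positivity))
        intro X hX
        have hX2 := (Finset.mem_filter.mp hX).2.2
        have : (4 : ℝ) ^ h = 2 ^ (2 * h) := by rw [pow_mul]; norm_num
        rw [this]
        exact pow_le_pow_right₀ (by norm_num) hX2.le
      rw [hΩ, moment G W (a * h) 2 1 y (by
        intro x; unfold w; split_ifs <;> norm_num)] at h1
      have hyR : (a : ℝ) * (∑ x ∈ W, w G x y : ℕ) ≤ W.card := by exact_mod_cast hy
      have h2 : ((∑ x ∈ W, w G x y : ℕ) : ℝ) ≤ W.card / a := by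
        rw [le_div_iff₀ hapos]; linarith
      have h3 : (W.card : ℝ) + 1 * (∑ x ∈ W, w G x y : ℕ) ≤ W.card * Real.exp (1 / a) := by
        have h4 := Real.add_one_le_exp ((1 : ℝ) / a)
        have h5 := mul_le_mul_of_nonneg_left h4 hWpos.le
        have h6 : (W.card : ℝ) * (1 / a + 1) = W.card / a + W.card := by ring
        linarith
      have h4 : ((W.card : ℝ) + 1 * (∑ x ∈ W, w G x y : ℕ)) ^ (a * h) ≤
          W.card ^ (a * h) * 3 ^ h := by
        refine (pow_le_pow_left₀ (by positivity) h3 _).trans ?_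
        rw [mul_pow]
        apply mul_le_mul_of_nonneg_left _ (by positivity)
        rw [pow_mul, ← Real.exp_nat_mul]
        have h5 : (a : ℝ) * (1 / a) = 1 := by field_simp
        rw [h5]
        apply pow_le_pow_left₀ (Real.exp_pos _).le
        have := Real.exp_one_lt_d9
        linarith
      have h5 : (W.card : ℝ) ^ (a * h) * (3 / 4) ^ h = W.card ^ (a * h) * 3 ^ h / 4 ^ h := by
        rw [div_pow]; ring
      rw [h5, le_div_iff₀ (by positivity)]
      exact h1.trans h4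
    · have : Ω.filter (fun X => a * ∑ x ∈ W, w G x y ≤ W.card ∧
          2 * h < ∑ i, w G (X i) y) = ∅ := by
        apply Finset.filter_eq_empty_iff.mpr
        intro X _ hX
        exact hy hX.1
      rw [this, Finset.card_empty, Nat.cast_zero]
      positivity
  have hB2 : ∀ y, ((Ω.filter (fun X => 4 * W.card < a * ∑ x ∈ W, w G x y ∧
      ∑ i, w G (X i) y ≤ 2 * h)).card : ℝ) ≤ (W.card : ℝ) ^ (a * h) * (3 / 4) ^ h := by
    intro y
    by_cases hy : 4 * W.card < a * ∑ x ∈ W, w G x y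
    · have h1 : ((Ω.filter (fun X => 4 * W.card < a * ∑ x ∈ W, w G x y ∧
          ∑ i, w G (X i) y ≤ 2 * h)).card : ℝ) * (1 / 4) ^ h ≤
          ∑ X ∈ Ω, (1 / 2 : ℝ) ^ (∑ i, w G (X i) y) := by
        rw [← nsmul_eq_mul]
        refine (Finset.card_nsmul_le_sum _ (fun X => (1 / 2 : ℝ) ^ (∑ i, w G (X i) y)) _ ?_).trans
          (Finset.sum_le_sum_of_subset_of_nonneg (Finset.filter_subset _ _)
            (fun _ _ _ => by positivity))
        intro X hX
        have hX2 := (Finset.mem_filter.mp hX).2.2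
        have : (1 / 4 : ℝ) ^ h = (1 / 2) ^ (2 * h) := by rw [pow_mul]; norm_num
        rw [this]
        exact pow_le_pow_of_le_one (by norm_num) (by norm_num) hX2
      rw [hΩ, moment G W (a * h) (1 / 2) (-1 / 2) y (by
        intro x; unfold w; split_ifs <;> norm_num)] at h1
      have hyR : 4 * (W.card : ℝ) < a * (∑ x ∈ W, w G x y : ℕ) := by exact_mod_cast hy
      have h2 : 4 * (W.card : ℝ) / a < ((∑ x ∈ W, w G x y : ℕ) : ℝ) := by
        rw [div_lt_iff₀ hapos]; linarith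
      have hle : ((∑ x ∈ W, w G x y : ℕ) : ℝ) ≤ W.card := by
        have : ∑ x ∈ W, w G x y ≤ W.card := by
          have := Finset.sum_le_card_nsmul W (fun x => w G x y) 1 (fun x _ => w_le_one G x y)
          simpa using this
        exact_mod_cast this
      have h3 : (W.card : ℝ) + -1 / 2 * (∑ x ∈ W, w G x y : ℕ) ≤ W.card * Real.exp (-(2 / a)) := by
        have h4 := Real.add_one_le_exp (-((2 : ℝ) / a))
        have h5 := mul_le_mul_of_nonneg_left h4 hWpos.le
        have h6 : (W.card : ℝ) * (-(2 / a) + 1) = W.card - (4 * W.card / a) / 2 := by ring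
        linarith
      have h4 : ((W.card : ℝ) + -1 / 2 * (∑ x ∈ W, w G x y : ℕ)) ^ (a * h) ≤
          W.card ^ (a * h) * (3 / 16) ^ h := by
        refine (pow_le_pow_left₀ (by linarith) h3 _).trans ?_
        rw [mul_pow]
        apply mul_le_mul_of_nonneg_left _ (by positivity)
        rw [pow_mul, ← Real.exp_nat_mul]
        have h5 : (a : ℝ) * (-(2 / a)) = -2 := by field_simp
        rw [h5]
        apply pow_le_pow_left₀ (Real.exp_pos _).le
        rw [Real.exp_neg]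
        have h7 : (16 / 3 : ℝ) ≤ Real.exp 2 := by
          have h8 := Real.exp_one_gt_d9
          have h9 : Real.exp 2 = Real.exp 1 * Real.exp 1 := by
            rw [← Real.exp_add]; norm_num
          rw [h9]; nlinarith
        have h10 : (3 / 16 : ℝ) = (16 / 3)⁻¹ := by norm_num
        rw [h10]
        exact inv_anti₀ (by norm_num) h7
      have h5 : (W.card : ℝ) ^ (a * h) * (3 / 4) ^ h * (1 / 4) ^ h =
          W.card ^ (a * h) * (3 / 16) ^ h := by
        rw [mul_assoc, ← mul_pow]; norm_num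
      have h6 := h1.trans h4
      rw [← h5] at h6
      exact le_of_mul_le_mul_right h6 (by positivity)
    · have : Ω.filter (fun X => 4 * W.card < a * ∑ x ∈ W, w G x y ∧
          ∑ i, w G (X i) y ≤ 2 * h) = ∅ := by
        apply Finset.filter_eq_empty_iff.mpr
        intro X _ hX
        exact hy hX.1
      rw [this, Finset.card_empty, Nat.cast_zero]
      positivity
  by_contra hcon
  push Not at hcon
  have hcover : Ω ⊆ U.biUnion (fun y =>
      Ω.filter (fun X => a * ∑ x ∈ W, w G x y ≤ W.card ∧ 2 * h < ∑ i, w G (X i) y) ∪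
      Ω.filter (fun X => 4 * W.card < a * ∑ x ∈ W, w G x y ∧
        ∑ i, w G (X i) y ≤ 2 * h)) := by
    intro X hX
    obtain ⟨y, hy, hXy⟩ := hcon X (Fintype.mem_piFinset.mp hX)
    refine Finset.mem_biUnion.mpr ⟨y, hy, ?_⟩
    rw [Finset.mem_union, Finset.mem_filter, Finset.mem_filter]
    by_cases h1 : a * ∑ x ∈ W, w G x y ≤ W.card → ∑ i, w G (X i) y ≤ 2 * h
    · obtain ⟨h2, h3⟩ := hXy h1
      exact Or.inr ⟨hX, h3, h2⟩
    · push Not at h1
      exact Or.inl ⟨hX, h1.1, h1.2⟩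
  have h1 := (Finset.card_le_card hcover).trans Finset.card_biUnion_le
  have h2 : (Ω.card : ℝ) ≤ ∑ y ∈ U, 2 * ((W.card : ℝ) ^ (a * h) * (3 / 4) ^ h) := by
    refine le_trans (by exact_mod_cast h1 : (Ω.card : ℝ) ≤ ((∑ y ∈ U, (
      Ω.filter (fun X => a * ∑ x ∈ W, w G x y ≤ W.card ∧ 2 * h < ∑ i, w G (X i) y) ∪
      Ω.filter (fun X => 4 * W.card < a * ∑ x ∈ W, w G x y ∧
        ∑ i, w G (X i) y ≤ 2 * h)).card : ℕ) : ℝ)) ?_
    push_cast
    apply Finset.sum_le_sum
    intro y _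
    have h3 : ((Ω.filter (fun X => a * ∑ x ∈ W, w G x y ≤ W.card ∧
      2 * h < ∑ i, w G (X i) y) ∪ Ω.filter (fun X => 4 * W.card < a * ∑ x ∈ W, w G x y ∧
        ∑ i, w G (X i) y ≤ 2 * h)).card : ℝ) ≤
        ((Ω.filter (fun X => a * ∑ x ∈ W, w G x y ≤ W.card ∧
      2 * h < ∑ i, w G (X i) y)).card : ℝ) + ((Ω.filter (fun X => 4 * W.card <
        a * ∑ x ∈ W, w G x y ∧ ∑ i, w G (X i) y ≤ 2 * h)).card : ℝ) := by
      exact_mod_cast Finset.card_union_le _ _
    have := hB1 y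
    have := hB2 y
    linarith
  rw [Finset.sum_const, nsmul_eq_mul, hΩc] at h2
  have hWp : (0 : ℝ) < (W.card : ℝ) ^ (a * h) := by positivity
  have h3 : (W.card : ℝ) ^ (a * h) * 1 ≤
      (W.card : ℝ) ^ (a * h) * (2 * U.card * (3 / 4) ^ h) := by
    calc (W.card : ℝ) ^ (a * h) * 1 ≤ (U.card : ℝ) * (2 * ((W.card : ℝ) ^ (a * h) * (3 / 4) ^ h)) := by
          rw [mul_one]; exact h2
      _ = _ := by ring
  have h4 := le_of_mul_le_mul_left h3 hWp
  have h5 : 2 * (U.card : ℝ) * (3 / 4) ^ h < (4 / 3) ^ h * (3 / 4) ^ h :=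
    mul_lt_mul_of_pos_right hU (by positivity)
  rw [← mul_pow] at h5
  norm_num at h5
  linarith

end Sampling

/-- a set with one element in each block meets no small set of a given family in many points -/
theorem subset_sample {V : Type} [DecidableEq V] (U : Finset V) (M q : ℕ) (hq : 0 < q)
    (hMq : M * q ≤ U.card) {ι : Type} [Fintype ι] (F : ι → Finset V) (Z t : ℕ) (hZ : 1 ≤ Z)
    (hι : 3 * Fintype.card ι < Z ^ t) :
    ∃ U' ⊆ U, U'.card = M ∧ ∀ i, t ≤ (F i ∩ U').card → q < Z * (F i).card := by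
  classical
  obtain ⟨e⟩ : Nonempty (Fin M × Fin q ↪ U) := by
    apply Function.Embedding.nonempty_of_card_le
    simpa using hMq
  have hqR : (0 : ℝ) < q := by exact_mod_cast hq
  set S : (Fin M → Fin q) → Finset V := fun h =>
    Finset.univ.image (fun i => (e (i, h i) : V)) with hS
  have hinj : ∀ h : Fin M → Fin q, Function.Injective (fun i => (e (i, h i) : V)) := by
    intro h i j hij
    have := e.injective (Subtype.ext hij)
    exact (Prod.ext_iff.mp this).1
  have hScard : ∀ h, (S h).card = M := by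
    intro h
    rw [hS, Finset.card_image_of_injective _ (hinj h)]; simp
  have hSsub : ∀ h, S h ⊆ U := by
    intro h x hx
    obtain ⟨i, _, rfl⟩ := Finset.mem_image.mp hx
    exact (e (i, h i)).2
  have hinter : ∀ (A : Finset V) (h : Fin M → Fin q),
      (A ∩ S h).card = ∑ i, (if (e (i, h i) : V) ∈ A then 1 else 0) := by
    intro A h
    rw [← Finset.card_filter]
    have : A ∩ S h = (Finset.univ.filter (fun i => (e (i, h i) : V) ∈ A)).image
        (fun i => (e (i, h i) : V)) := by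
      ext x
      simp only [hS, Finset.mem_inter, Finset.mem_image, Finset.mem_filter, Finset.mem_univ,
        true_and]
      constructor
      · rintro ⟨hx, i, rfl⟩
        exact ⟨i, hx, rfl⟩
      · rintro ⟨i, hi, rfl⟩
        exact ⟨hi, i, rfl⟩
    rw [this, Finset.card_image_of_injective _ (hinj h)]
  have hZR : (1 : ℝ) ≤ Z := by exact_mod_cast hZ
  have hmom : ∀ A : Finset V, Z * A.card ≤ q →
      ∑ h : Fin M → Fin q, (Z : ℝ) ^ (A ∩ S h).card ≤ q ^ M * 3 := by
    intro A hA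
    have h1 : ∀ h : Fin M → Fin q, (Z : ℝ) ^ (A ∩ S h).card =
        ∏ i, (Z : ℝ) ^ (if (e (i, h i) : V) ∈ A then 1 else 0) := by
      intro h
      rw [hinter, Finset.prod_pow_eq_pow_sum]
    simp_rw [h1]
    have h2 := (Finset.prod_univ_sum (fun _ : Fin M => (Finset.univ : Finset (Fin q)))
      (fun i j => (Z : ℝ) ^ (if (e (i, j) : V) ∈ A then 1 else 0))).symm
    rw [Fintype.piFinset_univ] at h2
    rw [h2]
    set b : Fin M → ℕ := fun i => ∑ j, (if (e (i, j) : V) ∈ A then 1 else 0) with hb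
    have h3 : ∀ i, ∑ j, (Z : ℝ) ^ (if (e (i, j) : V) ∈ A then 1 else 0) ≤
        q * Real.exp ((Z : ℝ) * (b i : ℝ) / q) := by
      intro i
      have h4 : ∑ j, (Z : ℝ) ^ (if (e (i, j) : V) ∈ A then 1 else 0) ≤ q + Z * b i := by
        have h5 : ∀ j, (Z : ℝ) ^ (if (e (i, j) : V) ∈ A then 1 else 0) ≤
            1 + Z * ((if (e (i, j) : V) ∈ A then 1 else 0 : ℕ) : ℝ) := by
          intro j; split_ifs <;> norm_num
        refine (Finset.sum_le_sum fun j _ => h5 j).trans (le_of_eq ?_)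
        rw [Finset.sum_add_distrib, hb, ← Finset.mul_sum]
        push_cast
        simp
      have h5 := Real.add_one_le_exp ((Z : ℝ) * (b i : ℝ) / q)
      have h6 := mul_le_mul_of_nonneg_left h5 hqR.le
      have h7 : (q : ℝ) * ((Z : ℝ) * (b i : ℝ) / q + 1) = q + Z * b i := by field_simp; ring
      linarith
    have h8 : ∏ i, ∑ j, (Z : ℝ) ^ (if (e (i, j) : V) ∈ A then 1 else 0) ≤
        ∏ i, (q * Real.exp ((Z : ℝ) * (b i : ℝ) / q)) :=
      Finset.prod_le_prod (fun i _ => Finset.sum_nonneg fun j _ => by positivity)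
        (fun i _ => h3 i)
    refine h8.trans ?_
    rw [Finset.prod_mul_distrib, Finset.prod_const, Finset.card_univ, Fintype.card_fin,
      ← Real.exp_sum]
    apply mul_le_mul_of_nonneg_left _ (by positivity)
    have h9 : ∑ i, b i ≤ A.card := by
      have h10 : ∑ i, b i = ((Finset.univ : Finset (Fin M × Fin q)).filter
          (fun p => (e p : V) ∈ A)).card := by
        rw [Finset.card_filter, hb, ← Finset.univ_product_univ, Finset.sum_product]
      rw [h10]
      apply Finset.card_le_card_of_injOn (fun p => (e p : V))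
      · intro p hp
        exact (Finset.mem_filter.mp hp).2
      · intro p _ p' _ hpp
        exact e.injective (Subtype.ext hpp)
    have h11 : (∑ i, (b i : ℝ)) ≤ A.card := by exact_mod_cast h9
    have h12 : (Z : ℝ) * A.card ≤ q := by exact_mod_cast hA
    have h13 : ∑ i, (Z : ℝ) * (b i : ℝ) / q ≤ 1 := by
      rw [← Finset.sum_div, ← Finset.mul_sum, div_le_one hqR]
      exact (mul_le_mul_of_nonneg_left h11 (by linarith)).trans h12
    refine (Real.exp_le_exp.mpr h13).trans ?_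
    have := Real.exp_one_lt_d9
    linarith
  by_contra hcon
  push Not at hcon
  have hcover : (Finset.univ : Finset (Fin M → Fin q)) ⊆ Finset.univ.biUnion (fun i : ι =>
      Finset.univ.filter (fun h => t ≤ (F i ∩ S h).card ∧ Z * (F i).card ≤ q)) := by
    intro h _
    obtain ⟨i, hi⟩ := hcon (S h) (hSsub h) (hScard h)
    refine Finset.mem_biUnion.mpr ⟨i, Finset.mem_univ _, Finset.mem_filter.mpr
      ⟨Finset.mem_univ _, hi⟩⟩
  have hone : ∀ i : ι, ((Finset.univ.filter (fun h => t ≤ (F i ∩ S h).card ∧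
      Z * (F i).card ≤ q)).card : ℝ) * (Z : ℝ) ^ t ≤ q ^ M * 3 := by
    intro i
    by_cases hi : Z * (F i).card ≤ q
    · refine le_trans ?_ (hmom (F i) hi)
      rw [← nsmul_eq_mul]
      refine (Finset.card_nsmul_le_sum _ (fun h => (Z : ℝ) ^ (F i ∩ S h).card) _ ?_).trans
          (Finset.sum_le_sum_of_subset_of_nonneg (Finset.filter_subset _ _)
            (fun _ _ _ => by positivity))
      intro h hh
      exact pow_le_pow_right₀ hZR (Finset.mem_filter.mp hh).2.1
    · have : (Finset.univ.filter (fun h => t ≤ (F i ∩ S h).card ∧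
          Z * (F i).card ≤ q)) = ∅ := by
        apply Finset.filter_eq_empty_iff.mpr
        intro X _ hX
        exact hi hX.2
      rw [this, Finset.card_empty, Nat.cast_zero, zero_mul]
      positivity
  have h1 := (Finset.card_le_card hcover).trans Finset.card_biUnion_le
  rw [Finset.card_univ, Fintype.card_fun, Fintype.card_fin, Fintype.card_fin] at h1
  have h2 : ((q : ℝ) ^ M) * (Z : ℝ) ^ t ≤ ∑ i : ι, (q : ℝ) ^ M * 3 := by
    have h1R : ((q : ℝ) ^ M) ≤ ∑ i : ι, ((Finset.univ.filter (fun h => t ≤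
      (F i ∩ S h).card ∧ Z * (F i).card ≤ q)).card : ℝ) := by exact_mod_cast h1
    refine (mul_le_mul_of_nonneg_right h1R (by positivity)).trans ?_
    rw [Finset.sum_mul]
    exact Finset.sum_le_sum fun i _ => hone i
  rw [Finset.sum_const, nsmul_eq_mul, Finset.card_univ] at h2
  have hqM : (0 : ℝ) < (q : ℝ) ^ M := by positivity
  have h3 : (q : ℝ) ^ M * (Z : ℝ) ^ t ≤ (q : ℝ) ^ M * (3 * Fintype.card ι) := by
    refine h2.trans (le_of_eq ?_); ring
  have h4 := le_of_mul_le_mul_left h3 hqM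
  have h5 : (3 * Fintype.card ι : ℝ) < (Z : ℝ) ^ t := by exact_mod_cast hι
  linarith

/-! ### From small nearly homogeneous pairs to large ones -/

section Bootstrap

variable {V : Type} [DecidableEq V] (G : SimpleGraph V) [DecidableRel G.Adj]

/-- the set of vertices of `U` with few non-neighbours in the family `X` -/
def hood (U : Finset V) (h : ℕ) {s : ℕ} (X : Fin s → V) : Finset V :=
  U.filter (fun y => ∑ i, w G (X i) y ≤ 2 * h)

omit [DecidableEq V] in
/-- averaging -/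
theorem half_good (A : Finset V) (g : V → ℕ) (n b : ℕ) (hn : 0 < n)
    (h : 2 * b * ∑ x ∈ A, g x ≤ A.card * n) :
    A.card ≤ 2 * (A.filter (fun x => b * g x ≤ n)).card := by
  have hsplit : (A.filter (fun x => b * g x ≤ n)).card +
      (A.filter (fun x => ¬ b * g x ≤ n)).card = A.card :=
    Finset.card_filter_add_card_filter_not _
  set Ac := A.filter (fun x => ¬ b * g x ≤ n) with hAc
  have h1 : Ac.card * n ≤ ∑ x ∈ Ac, b * g x := by
    rw [← smul_eq_mul]
    exact Finset.card_nsmul_le_sum _ _ _ fun x hx => (not_le.mp (Finset.mem_filter.mp hx).2).le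
  have h2 : ∑ x ∈ Ac, b * g x ≤ b * ∑ x ∈ A, g x := by
    rw [Finset.mul_sum]
    exact Finset.sum_le_sum_of_subset (Finset.filter_subset _ _)
  have h3 : (2 * Ac.card) * n ≤ A.card * n := by
    calc (2 * Ac.card) * n = 2 * (Ac.card * n) := by ring
      _ ≤ 2 * (b * ∑ x ∈ A, g x) := by omega
      _ = 2 * b * ∑ x ∈ A, g x := by ring
      _ ≤ _ := h
  have h4 := Nat.le_of_mul_le_mul_right h3 hn
  omega

theorem bootstrap (U U' A B : Finset V) (a' h q Z t : ℕ) (ha' : 2 ≤ a') (ht : 1 ≤ t)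
    (hU'U : U' ⊆ U) (hAU' : A ⊆ U') (hBU' : B ⊆ U')
    (hUc : 2 * (U.card : ℝ) < (4 / 3) ^ h)
    (hA : 4 * t ≤ A.card) (hB : 4 * t ≤ B.card)
    (hdens : 4 * (8 * a') * ∑ x ∈ A, ∑ y ∈ B, w G x y ≤ A.card * B.card)
    (good1 : ∀ X : Fin (8 * a' * h) → V, t ≤ (hood G U h X ∩ U').card →
      q < Z * (hood G U h X).card)
    (good2 : ∀ X : Fin (a' * h) → V, t ≤ (hood G U h X ∩ U').card →
      q < Z * (hood G U h X).card) :
    ∃ A₁ ⊆ U, ∃ B₁ ⊆ U, q < Z * A₁.card ∧ q < Z * B₁.card ∧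
      ∀ x ∈ A₁, a' * ∑ y ∈ B₁, w G x y ≤ 4 * B₁.card := by
  have hApos : 0 < A.card := by omega
  have hBpos : 0 < B.card := by omega
  -- step 1
  set W := A.filter (fun x => (2 * (8 * a')) * ∑ y ∈ B, w G x y ≤ B.card) with hW
  have hWge : A.card ≤ 2 * W.card := by
    apply half_good A (fun x => ∑ y ∈ B, w G x y) B.card (2 * (8 * a')) hBpos
    calc 2 * (2 * (8 * a')) * ∑ x ∈ A, ∑ y ∈ B, w G x y =
        4 * (8 * a') * ∑ x ∈ A, ∑ y ∈ B, w G x y := by ring
      _ ≤ _ := hdens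
  have hWpos : 0 < W.card := by omega
  have hWne : W.Nonempty := Finset.card_pos.mp hWpos
  have hWB : 2 * (8 * a') * ∑ y ∈ B, ∑ x ∈ W, w G x y ≤ B.card * W.card := by
    rw [Finset.sum_comm, Finset.mul_sum, mul_comm B.card, ← smul_eq_mul W.card]
    exact Finset.sum_le_card_nsmul _ _ _ fun x hx => (Finset.mem_filter.mp hx).2
  set B2 := B.filter (fun y => (8 * a') * ∑ x ∈ W, w G x y ≤ W.card) with hB2
  have hB2ge : B.card ≤ 2 * B2.card :=
    half_good B (fun y => ∑ x ∈ W, w G x y) W.card (8 * a') hWpos hWB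
  -- step 2
  obtain ⟨X, hXW, hX⟩ := sample G W U hWne (8 * a') h (by omega) hUc
  set Bs := hood G U h X with hBs
  have hB2Bs : B2 ⊆ Bs ∩ U' := by
    intro y hy
    have hy1 := Finset.mem_filter.mp hy
    have hyU' : y ∈ U' := hBU' hy1.1
    refine Finset.mem_inter.mpr ⟨Finset.mem_filter.mpr ⟨hU'U hyU', ?_⟩, hyU'⟩
    exact (hX y (hU'U hyU')).1 hy1.2
  have hBsU' : t ≤ (Bs ∩ U').card := by
    have := Finset.card_le_card hB2Bs
    omega
  have hBsbig : q < Z * Bs.card := good1 X hBsU'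
  have hBsU : Bs ⊆ U := Finset.filter_subset _ _
  have hBspos : 0 < Bs.card := by
    have := Finset.card_le_card (Finset.inter_subset_left : Bs ∩ U' ⊆ Bs)
    omega
  have hBsne : Bs.Nonempty := Finset.card_pos.mp hBspos
  have hBsW : ∀ y ∈ Bs, (8 * a') * ∑ x ∈ W, w G x y ≤ 4 * W.card := by
    intro y hy
    have hy1 := Finset.mem_filter.mp hy
    exact (hX y hy1.1).2 hy1.2
  -- step 3
  have hsum3 : (8 * a') * ∑ x ∈ W, ∑ y ∈ Bs, w G x y ≤ 4 * (W.card * Bs.card) := by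
    rw [Finset.sum_comm, Finset.mul_sum]
    refine (Finset.sum_le_card_nsmul _ _ _ hBsW).trans (le_of_eq ?_)
    rw [smul_eq_mul]; ring
  set A3 := W.filter (fun x => a' * ∑ y ∈ Bs, w G x y ≤ Bs.card) with hA3
  have hA3ge : W.card ≤ 2 * A3.card := by
    apply half_good W (fun x => ∑ y ∈ Bs, w G x y) Bs.card a' hBspos
    have : 8 * a' * ∑ x ∈ W, ∑ y ∈ Bs, w G x y = 4 * (2 * a' * ∑ x ∈ W, ∑ y ∈ Bs, w G x y) := by
      ring
    omega
  -- step 4
  obtain ⟨Y, hYB, hY⟩ := sample G Bs U hBsne a' h ha' hUc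
  set As := hood G U h Y with hAs
  have hA3As : A3 ⊆ As ∩ U' := by
    intro x hx
    have hx1 := Finset.mem_filter.mp hx
    have hxU' : x ∈ U' := hAU' (Finset.mem_filter.mp hx1.1).1
    refine Finset.mem_inter.mpr ⟨Finset.mem_filter.mpr ⟨hU'U hxU', ?_⟩, hxU'⟩
    apply (hY x (hU'U hxU')).1
    have : ∑ y ∈ Bs, w G y x = ∑ y ∈ Bs, w G x y :=
      Finset.sum_congr rfl fun y _ => w_symm G y x
    rw [this]; exact hx1.2
  have hAsU' : t ≤ (As ∩ U').card := by
    have := Finset.card_le_card hA3As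
    omega
  refine ⟨As, Finset.filter_subset _ _, Bs, hBsU, good2 Y hAsU', hBsbig, ?_⟩
  intro x hx
  have hx1 := Finset.mem_filter.mp hx
  have h5 := (hY x hx1.1).2 hx1.2
  have : ∑ y ∈ Bs, w G y x = ∑ y ∈ Bs, w G x y :=
    Finset.sum_congr rfl fun y _ => w_symm G y x
  rw [this] at h5
  exact h5

/-- disjoint large pairs -/
theorem make_disjoint (U A₁ B₁ : Finset V) (f q Z : ℕ) (hq : 2 * Z ≤ q)
    (hA₁ : A₁ ⊆ U) (hB₁ : B₁ ⊆ U) (hA : q < Z * A₁.card) (hB : q < Z * B₁.card)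
    (hd : ∀ x ∈ A₁, 2 ^ (f + 6) * ∑ y ∈ B₁, w G x y ≤ 4 * B₁.card) :
    ∃ A ⊆ U, ∃ B ⊆ U, Disjoint A B ∧ q ≤ 4 * Z * A.card ∧ q ≤ 4 * Z * B.card ∧
      2 ^ (f + 2) * ∑ x ∈ A, ∑ y ∈ B, w G x y < A.card * B.card := by
  have hA2 : 2 < A₁.card := by
    have : Z * 2 < Z * A₁.card := by omega
    exact Nat.lt_of_mul_lt_mul_left this
  have hB2' : 2 < B₁.card := by
    have : Z * 2 < Z * B₁.card := by omega
    exact Nat.lt_of_mul_lt_mul_left this
  set n := min A₁.card B₁.card with hn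
  have hn1 : n ≤ A₁.card := min_le_left _ _
  have hn2 : n ≤ B₁.card := min_le_right _ _
  have hn3 : 3 ≤ n := by
    rw [hn, le_min_iff]; constructor <;> omega
  have hn4 : q ≤ Z * n := by
    rcases le_total A₁.card B₁.card with h | h
    · rw [hn, min_eq_left h]; exact hA.le
    · rw [hn, min_eq_right h]; exact hB.le
  obtain ⟨A, hAA, hAc⟩ := Finset.exists_subset_card_eq (s := A₁) (n := n / 2) (by omega)
  have hBc : B₁.card ≤ (B₁ \ A).card + A.card := by
    have := Finset.card_le_card_sdiff_add_card (s := B₁) (t := A)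
    exact this
  have hB2 : B₁.card ≤ 2 * (B₁ \ A).card := by omega
  have hqA : q ≤ 4 * Z * A.card := by
    calc q ≤ Z * n := hn4
      _ ≤ Z * (4 * A.card) := Nat.mul_le_mul_left _ (by omega)
      _ = _ := by ring
  have hqB : q ≤ 4 * Z * (B₁ \ A).card := by
    calc q ≤ Z * n := hn4
      _ ≤ Z * (4 * (B₁ \ A).card) := Nat.mul_le_mul_left _ (by omega)
      _ = _ := by ring
  refine ⟨A, hAA.trans hA₁, B₁ \ A, Finset.sdiff_subset.trans hB₁, Finset.disjoint_sdiff,
    hqA, hqB, ?_⟩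
  have hApos : 0 < A.card := by omega
  have hBpos : 0 < (B₁ \ A).card := by omega
  have h1 : 2 ^ (f + 6) * ∑ x ∈ A, ∑ y ∈ B₁ \ A, w G x y ≤ 8 * (A.card * (B₁ \ A).card) := by
    calc 2 ^ (f + 6) * ∑ x ∈ A, ∑ y ∈ B₁ \ A, w G x y ≤
        2 ^ (f + 6) * ∑ x ∈ A, ∑ y ∈ B₁, w G x y :=
          Nat.mul_le_mul_left _ (Finset.sum_le_sum fun x _ =>
            Finset.sum_le_sum_of_subset Finset.sdiff_subset)
      _ = ∑ x ∈ A, 2 ^ (f + 6) * ∑ y ∈ B₁, w G x y := Finset.mul_sum _ _ _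
      _ ≤ A.card • (4 * B₁.card) := Finset.sum_le_card_nsmul _ _ _ fun x hx => hd x (hAA hx)
      _ = A.card * (4 * B₁.card) := by rw [smul_eq_mul]
      _ ≤ A.card * (8 * (B₁ \ A).card) := Nat.mul_le_mul_left _ (by omega)
      _ = _ := by ring
  have h2 : 2 ^ (f + 6) * ∑ x ∈ A, ∑ y ∈ B₁ \ A, w G x y =
      16 * (2 ^ (f + 2) * ∑ x ∈ A, ∑ y ∈ B₁ \ A, w G x y) := by
    rw [show f + 6 = (f + 2) + 4 by ring, pow_add]; ring
  have h3 : 0 < A.card * (B₁ \ A).card := Nat.mul_pos hApos hBpos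
  omega

end Bootstrap

/-! ### The recursion -/

theorem induct {V : Type} [DecidableEq V] (G : SimpleGraph V) [DecidableRel G.Adj]
    (f k : ℕ) (hcl : G.CliqueFree k) (hind : Gᶜ.CliqueFree k) (σ₀ μ F₀ D : ℝ)
    (hμ : 0 ≤ μ) (hF₀ : 0 < F₀) (hD : 0 < D)
    (hDμ : 2 * 2 ^ ((k : ℝ) * ((f + 2) / 2 ^ f)) * D ≤ 2 ^ (μ * k))
    (pair : ∀ U : Finset V, (2 : ℝ) ^ (σ₀ * k) ≤ U.card → ∃ A ⊆ U, ∃ B ⊆ U, Disjoint A B ∧
      (U.card : ℝ) ≤ D * A.card ∧ (U.card : ℝ) ≤ D * B.card ∧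
      ((2 ^ (f + 2) * ∑ x ∈ A, ∑ y ∈ B, w G x y < A.card * B.card) ∨
        (2 ^ (f + 2) * ∑ x ∈ A, ∑ y ∈ B, w Gᶜ x y < A.card * B.card)))
    (base : ∀ U : Finset V, (2 : ℝ) ^ (σ₀ * k) ≤ U.card → HasProd G U F₀) :
    ∀ (i : ℕ) (U : Finset V), (2 : ℝ) ^ ((σ₀ + i * μ) * k) ≤ U.card →
      HasProd G U ((2 - 1 / 2 ^ f) ^ i * F₀) := by
  have hkR : (0 : ℝ) ≤ k := Nat.cast_nonneg k
  have hf1 : (1 : ℝ) / 2 ^ f ≤ 1 := by
    rw [div_le_one (by positivity)]; exact one_le_pow₀ (by norm_num)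
  have h2f : (0 : ℝ) < 2 - 1 / 2 ^ f := by linarith
  intro i
  induction i with
  | zero =>
    intro U hU
    rw [pow_zero, one_mul]
    apply base U
    simpa using hU
  | succ i ih =>
    intro U hU
    have hU0 : (2 : ℝ) ^ (σ₀ * k) ≤ U.card := by
      refine le_trans (Real.rpow_le_rpow_of_exponent_le (by norm_num) ?_) hU
      apply mul_le_mul_of_nonneg_right _ hkR
      have : 0 ≤ ((i + 1 : ℕ) : ℝ) * μ := by positivity
      linarith
    obtain ⟨A, hAU, B, hBU, hAB, hAc, hBc, hdens⟩ := pair U hU0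
    have hUpos : (0 : ℝ) < U.card := lt_of_lt_of_le (by positivity) hU0
    have hBpos : 0 < B.card := by
      rcases Nat.eq_zero_or_pos B.card with h0 | h0
      · rw [h0, Nat.cast_zero, mul_zero] at hBc; linarith
      · exact h0
    set t : ℝ := (k : ℝ) * ((f + 2) / 2 ^ f) with ht
    have ht0 : 0 ≤ t := by positivity
    have h2t : (1 : ℝ) ≤ 2 ^ t := Real.one_le_rpow (by norm_num) ht0
    have sub : ∀ X : Finset V, (U.card : ℝ) ≤ D * X.card → ∀ X' ⊆ X,
        (X.card : ℝ) ≤ 2 * 2 ^ t * X'.card → HasProd G X' ((2 - 1 / 2 ^ f) ^ i * F₀) := by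
      intro X hXc X' hX' hXX'
      apply ih X'
      have h1 : (2 : ℝ) ^ ((σ₀ + (i + 1 : ℕ) * μ) * k) =
          2 ^ ((σ₀ + i * μ) * k) * 2 ^ (μ * k) := by
        rw [← Real.rpow_add (by norm_num)]; congr 1; push_cast; ring
      rw [h1] at hU
      have h2 : (U.card : ℝ) ≤ 2 ^ (μ * k) * X'.card := by
        calc (U.card : ℝ) ≤ D * X.card := hXc
          _ ≤ D * (2 * 2 ^ t * X'.card) := mul_le_mul_of_nonneg_left hXX' hD.le
          _ = (2 * 2 ^ t * D) * X'.card := by ring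
          _ ≤ _ := mul_le_mul_of_nonneg_right hDμ (Nat.cast_nonneg _)
      have h3 : 2 ^ (μ * (k : ℝ)) * 2 ^ ((σ₀ + i * μ) * k) ≤ 2 ^ (μ * k) * (X'.card : ℝ) := by
        refine le_trans (le_of_eq (mul_comm _ _)) (hU.trans h2)
      exact le_of_mul_le_mul_left h3 (by positivity)
    have subA : ∀ A' ⊆ A, A.card ≤ 2 * A'.card →
        HasProd G A' ((2 - 1 / 2 ^ f) ^ i * F₀) := by
      intro A' hA' hc
      refine sub A hAc A' hA' ?_
      have hc' : (A.card : ℝ) ≤ 2 * A'.card := by exact_mod_cast hc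
      have : (A'.card : ℝ) ≤ 2 ^ t * A'.card := le_mul_of_one_le_left (Nat.cast_nonneg _) h2t
      linarith
    have subB := sub B hBc
    have hFA : 0 < (2 - 1 / 2 ^ f) ^ i * F₀ := by positivity
    have gain : (2 - 1 / 2 ^ f) ^ (i + 1) * F₀ ≤
        (1 - 1 / 2 ^ f) * ((2 - 1 / 2 ^ f) ^ i * F₀) + (2 - 1 / 2 ^ f) ^ i * F₀ :=
      le_of_eq (by rw [pow_succ]; ring)
    rcases hdens with hd | hd
    · exact (step G f k hcl A B hAB (Finset.card_pos.mp hBpos) hd _ _ hFA subA subB).mono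
        (Finset.union_subset hAU hBU) gain
    · exact (HasProd.compl (step Gᶜ f k hind A B hAB (Finset.card_pos.mp hBpos) hd _ _ hFA
        (fun A' h h' => (subA A' h h').to_compl) (fun B' h h' => (subB B' h h').to_compl))).mono
        (Finset.union_subset hAU hBU) gain

/-! ### The base case -/

theorem base_case {V : Type} (G : SimpleGraph V) (e k : ℕ) (hk : 0 < k) (hcl : G.CliqueFree k)
    (hind : Gᶜ.CliqueFree k) (U : Finset V)
    (hU : (2 : ℝ) ^ ((((e : ℝ) + 4) / 2 ^ e) * k) ≤ U.card) :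
    HasProd G U (((k / 2 ^ e : ℕ) + 1 : ℝ) ^ 2) := by
  set m := k / 2 ^ e with hm
  have hmk : 2 ^ e * m ≤ k := Nat.mul_div_le k (2 ^ e)
  have h1 := choose_le hmk
  have h2 : (m + k).choose m ≤ U.card := by
    have : ((m + k).choose m : ℝ) ≤ U.card := by
      refine h1.trans ?_
      rw [mul_comm (k : ℝ)]; exact hU
    exact_mod_cast this
  obtain ⟨k', rfl⟩ : ∃ k', k = k' + 1 := ⟨k - 1, by omega⟩
  have h3 : (m + k').choose m ≤ U.card :=
    (Nat.choose_le_choose m (by omega)).trans h2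
  have h4 : (k' + m).choose k' ≤ U.card := by
    have : (k' + m).choose k' = (m + k').choose m := by
      rw [add_comm k' m, ← Nat.choose_symm_add]
    rw [this]; exact h3
  have hR : ∃ R ⊆ U, G.IsNClique (m + 1) R := by
    rcases es G _ m k' rfl U h3 with h | ⟨S, hS, hc⟩
    · exact h
    · exact absurd (by simpa using hc) (hind S)
  have hS : ∃ S ⊆ U, G.IsNIndepSet (m + 1) S := by
    rcases es G _ k' m rfl U h4 with ⟨S, hS, hc⟩ | h
    · exact absurd hc (hcl S)
    · exact h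
  obtain ⟨R, hRU, hRc⟩ := hR
  obtain ⟨S, hSU, hSc⟩ := hS
  refine ⟨R, hRU, S, hSU, hRc.isClique, hSc.isIndepSet, ?_⟩
  rw [hRc.card_eq, hSc.card_eq]
  push_cast
  nlinarith

/-! ### Densities -/

theorem interedges_card {V : Type} [DecidableEq V] (G : SimpleGraph V) [DecidableRel G.Adj]
    (A B : Finset V) :
    (G.interedges A B).card + ∑ x ∈ A, ∑ y ∈ B, w G x y = A.card * B.card := by
  rw [G.interedges_def, Finset.card_filter, Finset.sum_product, ← Finset.sum_add_distrib]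
  rw [← smul_eq_mul, ← Finset.sum_const]
  refine Finset.sum_congr rfl fun x _ => ?_
  rw [← Finset.sum_add_distrib, Finset.card_eq_sum_ones]
  refine Finset.sum_congr rfl fun y _ => ?_
  unfold w
  by_cases h : G.Adj x y <;> simp [h]

theorem interedges_compl {V : Type} [DecidableEq V] (G : SimpleGraph V) [DecidableRel G.Adj]
    (A B : Finset V) (hAB : Disjoint A B) :
    (G.interedges A B).card = ∑ x ∈ A, ∑ y ∈ B, w Gᶜ x y := by
  rw [G.interedges_def, Finset.card_filter, Finset.sum_product]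
  refine Finset.sum_congr rfl fun x hx => ?_
  refine Finset.sum_congr rfl fun y hy => ?_
  have hne : x ≠ y := fun h => Finset.disjoint_left.mp hAB hx (h ▸ hy)
  unfold w
  by_cases h : G.Adj x y <;> simp [h, hne]


/-! ### Large pairs in every large set -/

theorem large_pair {V : Type} [Fintype V] [DecidableEq V] (G : SimpleGraph V)
    [DecidableRel G.Adj] (f k M t z : ℕ) (_hk : 1 ≤ k) (hV : Fintype.card V ≤ 4 ^ k) (hM : 1 ≤ M)
    (ht : 1 ≤ t) (hzt : 4 + 2 * k * (2 ^ (f + 9) * (6 * k + 6)) ≤ z * t)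
    (bad : ∀ U' : Finset V, U'.card = M → ∃ A ⊆ U', ∃ B ⊆ U', Disjoint A B ∧
      4 * t ≤ A.card ∧ 4 * t ≤ B.card ∧
      ((2 ^ (f + 11) * ∑ x ∈ A, ∑ y ∈ B, w G x y ≤ A.card * B.card) ∨
        (2 ^ (f + 11) * ∑ x ∈ A, ∑ y ∈ B, w Gᶜ x y ≤ A.card * B.card)))
    (U : Finset V) (hU : M * (2 * 2 ^ z) ≤ U.card) :
    ∃ A ⊆ U, ∃ B ⊆ U, Disjoint A B ∧ U.card ≤ 8 * M * 2 ^ z * A.card ∧
      U.card ≤ 8 * M * 2 ^ z * B.card ∧
      ((2 ^ (f + 2) * ∑ x ∈ A, ∑ y ∈ B, w G x y < A.card * B.card) ∨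
        (2 ^ (f + 2) * ∑ x ∈ A, ∑ y ∈ B, w Gᶜ x y < A.card * B.card)) := by
  classical
  set a' : ℕ := 2 ^ (f + 6) with ha'
  set h : ℕ := 6 * k + 6 with hh
  set q : ℕ := U.card / M with hq
  have hqZ : 2 * 2 ^ z ≤ q := by
    rw [hq, Nat.le_div_iff_mul_le (by omega), mul_comm]; exact hU
  have hq1 : 1 ≤ q := le_trans (by have := Nat.one_le_two_pow (n := z); omega) hqZ
  have hMq : M * q ≤ U.card := Nat.mul_div_le _ _
  have hUlt : U.card < M * (q + 1) := Nat.lt_mul_div_succ _ (by omega)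
  have hU2 : U.card ≤ 2 * M * q := by
    have : M * (q + 1) = M * q + M := by ring
    have h2 : M ≤ M * q := Nat.le_mul_of_pos_right M (by omega)
    have h3 : 2 * M * q = M * q + M * q := by ring
    omega
  have ha8 : 8 * a' = 2 ^ (f + 9) := by rw [ha', show f + 9 = (f + 6) + 3 by ring, pow_add]; ring
  have ha32 : 4 * (8 * a') = 2 ^ (f + 11) := by
    rw [ha8, show f + 11 = (f + 9) + 2 by ring, pow_add]; ring
  have ha2 : 2 ≤ a' := by
    rw [ha']
    calc 2 = 2 ^ 1 := by norm_num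
      _ ≤ _ := Nat.pow_le_pow_right (by norm_num) (by omega)
  have hUV : U.card ≤ 4 ^ k := (Finset.card_le_univ U).trans hV
  have hUc : 2 * (U.card : ℝ) < (4 / 3) ^ h := by
    have h1 : (U.card : ℝ) ≤ 4 ^ k := by exact_mod_cast hUV
    have h2 : (4 / 3 : ℝ) ^ h = ((4 / 3) ^ 3) ^ (2 * k + 2) := by
      rw [← pow_mul]; congr 1; rw [hh]; ring
    have h3 : (2 : ℝ) ^ (2 * k + 2) ≤ ((4 / 3 : ℝ) ^ 3) ^ (2 * k + 2) :=
      pow_le_pow_left₀ (by norm_num) (by norm_num) _
    have h4 : (2 : ℝ) ^ (2 * k + 2) = 4 * 4 ^ k := by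
      rw [pow_add, pow_mul]; norm_num; ring
    have h5 : (0 : ℝ) < 4 ^ k := by positivity
    rw [h2]; linarith
  -- the family
  have hcardι : 3 * Fintype.card (((Fin (8 * a' * h) → V) ⊕ (Fin (a' * h) → V)) ⊕
      ((Fin (8 * a' * h) → V) ⊕ (Fin (a' * h) → V))) < (2 ^ z) ^ t := by
    rw [Fintype.card_sum, Fintype.card_sum, Fintype.card_fun, Fintype.card_fun, Fintype.card_fin,
      Fintype.card_fin]
    have h1 : Fintype.card V ^ (8 * a' * h) ≤ 2 ^ (2 * k * (8 * a' * h)) := by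
      calc Fintype.card V ^ (8 * a' * h) ≤ (4 ^ k) ^ (8 * a' * h) := Nat.pow_le_pow_left hV _
        _ = _ := by
          rw [← pow_mul, show (4 : ℕ) = 2 ^ 2 by norm_num, ← pow_mul]; congr 1; ring
    have h2 : Fintype.card V ^ (a' * h) ≤ 2 ^ (2 * k * (8 * a' * h)) := by
      calc Fintype.card V ^ (a' * h) ≤ (4 ^ k) ^ (a' * h) := Nat.pow_le_pow_left hV _
        _ = 2 ^ (2 * k * (a' * h)) := by
          rw [← pow_mul, show (4 : ℕ) = 2 ^ 2 by norm_num, ← pow_mul]; congr 1; ring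
        _ ≤ _ := by
          apply Nat.pow_le_pow_right (by norm_num)
          apply Nat.mul_le_mul_left
          nlinarith
    have h3 : 16 * 2 ^ (2 * k * (8 * a' * h)) ≤ (2 ^ z) ^ t := by
      rw [← pow_mul]
      calc 16 * 2 ^ (2 * k * (8 * a' * h)) = 2 ^ (4 + 2 * k * (8 * a' * h)) := by
            rw [pow_add]; norm_num
        _ ≤ _ := Nat.pow_le_pow_right (by norm_num) (by rw [ha8]; exact hzt)
    have h4 : 0 < 2 ^ (2 * k * (8 * a' * h)) := by positivity
    omega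
  obtain ⟨U', hU'U, hU'M, hgood⟩ := subset_sample U M q (by omega) hMq
    (Sum.elim (Sum.elim (fun X => hood G U h X) (fun X => hood G U h X))
      (Sum.elim (fun X => hood Gᶜ U h X) (fun X => hood Gᶜ U h X)) :
      ((Fin (8 * a' * h) → V) ⊕ (Fin (a' * h) → V)) ⊕
      ((Fin (8 * a' * h) → V) ⊕ (Fin (a' * h) → V)) → Finset V) (2 ^ z) t Nat.one_le_two_pow hcardι
  obtain ⟨A, hA, B, hB, hAB, hAc, hBc, hd⟩ := bad U' hU'M
  rcases hd with hd | hd
  · obtain ⟨A₁, hA₁, B₁, hB₁, hA₁c, hB₁c, hd₁⟩ := bootstrap G U U' A B a' h q (2 ^ z) t ha2 ht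
      hU'U hA hB hUc hAc hBc (by rw [ha32]; exact hd)
      (fun X => hgood (Sum.inl (Sum.inl X))) (fun X => hgood (Sum.inl (Sum.inr X)))
    obtain ⟨A₂, hA₂, B₂, hB₂, hdis, hA₂c, hB₂c, hd₂⟩ := make_disjoint G U A₁ B₁ f q (2 ^ z) hqZ
      hA₁ hB₁ hA₁c hB₁c hd₁
    exact ⟨A₂, hA₂, B₂, hB₂, hdis, (hU2.trans (Nat.mul_le_mul_left _ hA₂c)).trans (le_of_eq (by ring)),
      (hU2.trans (Nat.mul_le_mul_left _ hB₂c)).trans (le_of_eq (by ring)), Or.inl hd₂⟩
  · obtain ⟨A₁, hA₁, B₁, hB₁, hA₁c, hB₁c, hd₁⟩ := bootstrap Gᶜ U U' A B a' h q (2 ^ z) t ha2 ht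
      hU'U hA hB hUc hAc hBc (by rw [ha32]; exact hd)
      (fun X => hgood (Sum.inr (Sum.inl X))) (fun X => hgood (Sum.inr (Sum.inr X)))
    obtain ⟨A₂, hA₂, B₂, hB₂, hdis, hA₂c, hB₂c, hd₂⟩ := make_disjoint Gᶜ U A₁ B₁ f q (2 ^ z) hqZ
      hA₁ hB₁ hA₁c hB₁c hd₁
    exact ⟨A₂, hA₂, B₂, hB₂, hdis, (hU2.trans (Nat.mul_le_mul_left _ hA₂c)).trans (le_of_eq (by ring)),
      (hU2.trans (Nat.mul_le_mul_left _ hB₂c)).trans (le_of_eq (by ring)), Or.inr hd₂⟩

/-! ### The core theorem -/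

theorem card_le_four_pow {V : Type} [Fintype V] (G : SimpleGraph V) (k : ℕ) (hk : 1 ≤ k)
    (hcl : G.CliqueFree k) (hind : G.IndepSetFree k) : Fintype.card V ≤ 4 ^ k := by
  by_contra hcon
  obtain ⟨k', rfl⟩ : ∃ k', k = k' + 1 := ⟨k - 1, by omega⟩
  have h1 : (k' + k').choose k' ≤ (Finset.univ : Finset V).card := by
    rw [Finset.card_univ]
    have h2 : (k' + k').choose k' ≤ 2 ^ (k' + k') := Nat.choose_le_two_pow _ _
    have h3 : 2 ^ (k' + k') ≤ 4 ^ (k' + 1) := by
      rw [show (4 : ℕ) = 2 ^ 2 by norm_num, ← pow_mul]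
      exact Nat.pow_le_pow_right (by norm_num) (by omega)
    omega
  rcases es G _ k' k' rfl Finset.univ h1 with ⟨S, _, hS⟩ | ⟨S, _, hS⟩
  · exact hcl S hS
  · exact hind S hS

theorem core (c : ℝ) (hc : 0 < c) :
    ∃ δ : ℝ, 0 < δ ∧ ∃ η : ℝ, 0 < η ∧ ∃ C k₀ : ℕ, ∀ k ≥ k₀, ∀ (V : Type) [Fintype V]
      [DecidableEq V] (G : SimpleGraph V) [DecidableRel G.Adj], G.CliqueFree k →
      G.IndepSetFree k → (2 : ℝ) ^ (c * k) ≤ Fintype.card V →
      ∃ U : Finset V, (2 : ℝ) ^ (δ * k) ≤ U.card ∧ ∀ A ⊆ U, ∀ B ⊆ U, Disjoint A B →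
        C * k ≤ A.card → C * k ≤ B.card →
        η ≤ (G.edgeDensity A B : ℝ) ∧ (G.edgeDensity A B : ℝ) ≤ 1 - η := by
  set c' := min c 1 with hc'
  have hc'0 : 0 < c' := lt_min hc one_pos
  have hc'1 : c' ≤ 1 := min_le_right _ _
  have hc'c : c' ≤ c := min_le_left _ _
  obtain ⟨e, he1, he⟩ := exists_level (show 0 < c' / 2 by positivity)
  have he0 : (0 : ℝ) < 2 * e + 1 := by positivity
  obtain ⟨f, hf1, hf⟩ := exists_level (show 0 < c' / (8 * (2 * e + 1)) by positivity)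
  set σ₀ : ℝ := ((e : ℝ) + 4) / 2 ^ e with hσ₀
  have hσ₀0 : 0 < σ₀ := by positivity
  set μ : ℝ := c' / (2 * (2 * e + 1)) with hμ
  have hμ0 : 0 < μ := by positivity
  have hμe : (2 * (e : ℝ) + 1) * μ = c' / 2 := by
    rw [hμ]; field_simp
  have hf0 : (0 : ℝ) < 2 ^ f := by positivity
  have hκ : ((f : ℝ) + 2) / 2 ^ f ≤ μ / 4 := by
    have h1 : ((f : ℝ) + 2) / 2 ^ f ≤ ((f : ℝ) + 4) / 2 ^ f :=
      div_le_div_of_nonneg_right (by linarith) hf0.le
    have h2 : c' / (8 * (2 * e + 1)) = μ / 4 := by rw [hμ]; field_simp; norm_num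
    linarith
  have h2ef : (2 * (e : ℝ) + 1) ≤ 2 ^ f := by
    have h1 := hf
    rw [div_le_div_iff₀ hf0 (by positivity)] at h1
    have h2 : c' * 2 ^ f ≤ 1 * 2 ^ f := mul_le_mul_of_nonneg_right hc'1 hf0.le
    have h3 : (2 * (e : ℝ) + 1) ≤ ((f : ℝ) + 4) * (8 * (2 * e + 1)) := by
      have h4 : (0 : ℝ) ≤ f := Nat.cast_nonneg f
      nlinarith
    linarith
  set δ : ℝ := min (μ / 4) (σ₀ / 4) with hδ
  have hδ0 : 0 < δ := lt_min (by positivity) (by positivity)
  have hδ1 : δ ≤ μ / 4 := min_le_left _ _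
  have hδ2 : δ ≤ σ₀ / 4 := min_le_right _ _
  obtain ⟨k₁, hk₁⟩ := exists_nat_ge (24 / μ)
  obtain ⟨k₂, hk₂⟩ := exists_nat_ge (6 / σ₀)
  obtain ⟨C₁, hC₁⟩ := exists_nat_ge ((4 + 24 * 2 ^ (f + 9)) / δ)
  refine ⟨δ, hδ0, 1 / 2 ^ (f + 11), by positivity, 4 * C₁, max (max k₁ k₂) 1, ?_⟩
  intro k hk V _ _ G _ hcl hind hV
  have hk1 : 1 ≤ k := (le_max_right _ _).trans hk
  have hkk1 : (k₁ : ℝ) ≤ k := by
    exact_mod_cast ((le_max_left k₁ k₂).trans (le_max_left _ _)).trans hk
  have hkk2 : (k₂ : ℝ) ≤ k := by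
    exact_mod_cast ((le_max_right k₁ k₂).trans (le_max_left _ _)).trans hk
  have hkR : (0 : ℝ) < k := by exact_mod_cast hk1
  have hμk : 24 ≤ μ * k := by
    have := hk₁.trans hkk1
    rw [div_le_iff₀ hμ0] at this; linarith
  have hσk : 6 ≤ σ₀ * k := by
    have := hk₂.trans hkk2
    rw [div_le_iff₀ hσ₀0] at this; linarith
  have hind' : Gᶜ.CliqueFree k := by simpa using hind
  have hV4 := card_le_four_pow G k hk1 hcl hind
  by_contra hcon
  push Not at hcon
  set M : ℕ := ⌈(2 : ℝ) ^ (δ * k)⌉₊ with hM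
  have h2δ : (1 : ℝ) ≤ 2 ^ (δ * k) := Real.one_le_rpow (by norm_num) (by positivity)
  have hMge : (2 : ℝ) ^ (δ * k) ≤ M := Nat.le_ceil _
  have hMle : (M : ℝ) ≤ 2 * 2 ^ (δ * k) := by
    have := (Nat.ceil_lt_add_one (show (0 : ℝ) ≤ 2 ^ (δ * k) by positivity)).le
    linarith
  have hM1 : 1 ≤ M := by
    have : (1 : ℝ) ≤ M := h2δ.trans hMge
    exact_mod_cast this
  have hMpos : (0 : ℝ) < M := by exact_mod_cast hM1
  set z : ℕ := ⌈δ * k⌉₊ with hz
  have hzge : δ * k ≤ z := Nat.le_ceil _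
  have hzle : (z : ℝ) ≤ δ * k + 1 :=
    (Nat.ceil_lt_add_one (show (0 : ℝ) ≤ δ * k by positivity)).le
  set t : ℕ := C₁ * k with ht
  have hC₁' : 4 + 24 * (2 : ℝ) ^ (f + 9) ≤ δ * C₁ := by
    rw [div_le_iff₀ hδ0] at hC₁; linarith
  have ht1 : 1 ≤ t := by
    have : 0 < C₁ := by
      rcases Nat.eq_zero_or_pos C₁ with h0 | h0
      · rw [h0, Nat.cast_zero, mul_zero] at hC₁'
        have : (0 : ℝ) < 4 + 24 * (2 : ℝ) ^ (f + 9) := by positivity
        linarith
      · exact h0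
    exact Nat.mul_pos this hk1
  have hzt : 4 + 2 * k * (2 ^ (f + 9) * (6 * k + 6)) ≤ z * t := by
    have h1 : (4 + 24 * (2 : ℝ) ^ (f + 9)) * k ^ 2 ≤ (z : ℝ) * t := by
      calc (4 + 24 * (2 : ℝ) ^ (f + 9)) * k ^ 2 ≤ (δ * C₁) * k ^ 2 :=
            mul_le_mul_of_nonneg_right hC₁' (by positivity)
        _ = (δ * k) * (C₁ * k) := by ring
        _ ≤ (z : ℝ) * (C₁ * k) := mul_le_mul_of_nonneg_right hzge (by positivity)
        _ = _ := by rw [ht]; push_cast; ring
    have h2 : (4 + 24 * 2 ^ (f + 9)) * k ^ 2 ≤ z * t := by exact_mod_cast h1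
    have h3 : 1 ≤ k ^ 2 := Nat.one_le_pow _ _ (by omega)
    have h4 : k ≤ k ^ 2 := by nlinarith
    have h5 : 2 * k * (2 ^ (f + 9) * (6 * k + 6)) = 2 ^ (f + 9) * (12 * k ^ 2 + 12 * k) := by ring
    have h6 : (4 + 24 * 2 ^ (f + 9)) * k ^ 2 = 4 * k ^ 2 + 2 ^ (f + 9) * (24 * k ^ 2) := by ring
    have h7 : 2 ^ (f + 9) * (12 * k ^ 2 + 12 * k) ≤ 2 ^ (f + 9) * (24 * k ^ 2) :=
      Nat.mul_le_mul_left _ (by omega)
    omega
  have h4t : 4 * t ≤ 4 * C₁ * k := by rw [ht]; exact le_of_eq (by ring)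
  have hbad : ∀ U' : Finset V, U'.card = M → ∃ A ⊆ U', ∃ B ⊆ U', Disjoint A B ∧
      4 * t ≤ A.card ∧ 4 * t ≤ B.card ∧
      ((2 ^ (f + 11) * ∑ x ∈ A, ∑ y ∈ B, w G x y ≤ A.card * B.card) ∨
        (2 ^ (f + 11) * ∑ x ∈ A, ∑ y ∈ B, w Gᶜ x y ≤ A.card * B.card)) := by
    intro U' hU'
    obtain ⟨A, hAU, B, hBU, hAB, hAc, hBc, hd⟩ := hcon U' (by rw [hU']; exact hMge)
    refine ⟨A, hAU, B, hBU, hAB, h4t.trans hAc, h4t.trans hBc, ?_⟩
    have hApos' : 0 < A.card := by omega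
    have hBpos' : 0 < B.card := by omega
    have hApos : (0 : ℝ) < A.card := by exact_mod_cast hApos'
    have hBpos : (0 : ℝ) < B.card := by exact_mod_cast hBpos'
    have hdens : (G.edgeDensity A B : ℝ) = (G.interedges A B).card / (A.card * B.card) := by
      rw [G.edgeDensity_def]; push_cast; rfl
    have h2f : (0 : ℝ) < 2 ^ (f + 11) := by positivity
    by_cases hlow : (1 : ℝ) / 2 ^ (f + 11) ≤ (G.edgeDensity A B : ℝ)
    · left
      have hd' := hd hlow
      have hsum := interedges_card G A B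
      have hsumR : ((G.interedges A B).card : ℝ) + (∑ x ∈ A, ∑ y ∈ B, w G x y : ℕ) =
          A.card * B.card := by exact_mod_cast hsum
      rw [hdens, lt_div_iff₀ (by positivity)] at hd'
      have h3 : ((∑ x ∈ A, ∑ y ∈ B, w G x y : ℕ) : ℝ) ≤ 1 / 2 ^ (f + 11) * (A.card * B.card) := by
        linarith
      have h4 : (2 : ℝ) ^ (f + 11) * (∑ x ∈ A, ∑ y ∈ B, w G x y : ℕ) ≤ A.card * B.card := by
        have h5 := mul_le_mul_of_nonneg_left h3 h2f.le
        have h6 : (2 : ℝ) ^ (f + 11) * (1 / 2 ^ (f + 11) * ((A.card : ℝ) * B.card)) =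
            A.card * B.card := by field_simp
        linarith
      exact_mod_cast h4
    · right
      rw [not_le, hdens, div_lt_iff₀ (by positivity)] at hlow
      rw [← interedges_compl G A B hAB]
      have h4 : (2 : ℝ) ^ (f + 11) * (G.interedges A B).card ≤ A.card * B.card := by
        have h5 := mul_le_mul_of_nonneg_left hlow.le h2f.le
        have h6 : (2 : ℝ) ^ (f + 11) * (1 / 2 ^ (f + 11) * ((A.card : ℝ) * B.card)) =
            A.card * B.card := by field_simp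
        linarith
      exact_mod_cast h4
  have hF₀ : (0 : ℝ) < ((k / 2 ^ e : ℕ) + 1 : ℝ) ^ 2 := by positivity
  have hZle : (2 : ℝ) ^ z ≤ 2 * 2 ^ (δ * k) := by
    calc (2 : ℝ) ^ z = 2 ^ (z : ℝ) := (Real.rpow_natCast _ _).symm
      _ ≤ 2 ^ (δ * k + 1) := Real.rpow_le_rpow_of_exponent_le (by norm_num) hzle
      _ = _ := by rw [Real.rpow_add (by norm_num), Real.rpow_one]; ring
  have hMZ : (M : ℝ) * 2 ^ z ≤ 4 * 2 ^ (2 * (δ * k)) := by
    calc (M : ℝ) * 2 ^ z ≤ (2 * 2 ^ (δ * k)) * (2 * 2 ^ (δ * k)) :=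
          mul_le_mul hMle hZle (by positivity) (by positivity)
      _ = 4 * (2 ^ (δ * k) * 2 ^ (δ * k)) := by ring
      _ = _ := by rw [← Real.rpow_add (by norm_num)]; congr 2; ring
  have hDμ : 2 * 2 ^ ((k : ℝ) * ((f + 2) / 2 ^ f)) * (8 * (M : ℝ) * 2 ^ z) ≤ 2 ^ (μ * k) := by
    calc 2 * 2 ^ ((k : ℝ) * ((f + 2) / 2 ^ f)) * (8 * (M : ℝ) * 2 ^ z) =
        16 * 2 ^ ((k : ℝ) * ((f + 2) / 2 ^ f)) * ((M : ℝ) * 2 ^ z) := by ring
      _ ≤ 16 * 2 ^ ((k : ℝ) * ((f + 2) / 2 ^ f)) * (4 * 2 ^ (2 * (δ * k))) :=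
          mul_le_mul_of_nonneg_left hMZ (by positivity)
      _ = 2 ^ (6 : ℝ) * 2 ^ ((k : ℝ) * ((f + 2) / 2 ^ f)) * 2 ^ (2 * (δ * k)) := by
          have : (2 : ℝ) ^ (6 : ℝ) = 64 := by
            rw [show (6 : ℝ) = ((6 : ℕ) : ℝ) by norm_num, Real.rpow_natCast]; norm_num
          rw [this]; ring
      _ = 2 ^ (6 + (k : ℝ) * ((f + 2) / 2 ^ f) + 2 * (δ * k)) := by
          rw [← Real.rpow_add (by norm_num), ← Real.rpow_add (by norm_num)]
      _ ≤ _ := by
          apply Real.rpow_le_rpow_of_exponent_le (by norm_num)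
          have h1 := mul_le_mul_of_nonneg_left hκ hkR.le
          have h2 := mul_le_mul_of_nonneg_right hδ1 hkR.le
          linarith
  have hmain := induct G f k hcl hind' σ₀ μ (((k / 2 ^ e : ℕ) + 1 : ℝ) ^ 2)
    (8 * M * 2 ^ z) hμ0.le hF₀
    (by positivity) hDμ
    (by
      intro U hU
      have hMU : M * (2 * 2 ^ z) ≤ U.card := by
        have : (M : ℝ) * (2 * 2 ^ z) ≤ U.card := by
          refine le_trans ?_ hU
          calc (M : ℝ) * (2 * 2 ^ z) = 2 * (M * 2 ^ z) := by ring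
            _ ≤ 2 * (4 * 2 ^ (2 * (δ * k))) := mul_le_mul_of_nonneg_left hMZ (by norm_num)
            _ = 2 ^ (3 : ℝ) * 2 ^ (2 * (δ * k)) := by
                have : (2 : ℝ) ^ (3 : ℝ) = 8 := by
                  rw [show (3 : ℝ) = ((3 : ℕ) : ℝ) by norm_num, Real.rpow_natCast]; norm_num
                rw [this]; ring
            _ = 2 ^ (3 + 2 * (δ * k)) := by rw [← Real.rpow_add (by norm_num)]
            _ ≤ _ := by
                apply Real.rpow_le_rpow_of_exponent_le (by norm_num)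
                have h2 := mul_le_mul_of_nonneg_right hδ2 hkR.le
                linarith
        exact_mod_cast this
      obtain ⟨A, hA, B, hB, hAB, hAc, hBc, hd⟩ :=
        large_pair G f k M t z hk1 hV4 hM1 ht1 hzt hbad U hMU
      refine ⟨A, hA, B, hB, hAB, ?_, ?_, hd⟩
      · exact_mod_cast hAc
      · exact_mod_cast hBc)
    (fun U hU => base_case G e k hk1 hcl hind' U hU)
  obtain ⟨R, _, S, _, hRc, hSc, hprod⟩ := hmain (2 * e + 1) Finset.univ (by
    rw [Finset.card_univ]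
    refine le_trans ?_ hV
    apply Real.rpow_le_rpow_of_exponent_le (by norm_num)
    apply mul_le_mul_of_nonneg_right _ hkR.le
    push_cast
    linarith)
  have hR : R.card < k := clique_lt hcl hRc
  have hS : S.card < k := clique_lt hind' (by simpa using hSc)
  have h4e : ((2 : ℝ) ^ e) ^ 2 ≤ (2 - 1 / 2 ^ f) ^ (2 * e + 1) := by
    have h1 : (2 : ℝ) - 1 / 2 ^ f = 2 * (1 + -(1 / (2 * 2 ^ f))) := by field_simp; ring
    rw [h1, mul_pow]
    have h2 : -2 ≤ -(1 / (2 * (2 : ℝ) ^ f)) := by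
      have h3 : (1 : ℝ) / (2 * 2 ^ f) ≤ 1 := by
        rw [div_le_one (by positivity)]
        have : (1 : ℝ) ≤ 2 ^ f := one_le_pow₀ (by norm_num)
        linarith
      linarith
    have h3 := one_add_mul_le_pow h2 (2 * e + 1)
    have h4 : (1 : ℝ) / 2 ≤ 1 + ((2 * e + 1 : ℕ) : ℝ) * -(1 / (2 * 2 ^ f)) := by
      have h5 : ((2 * e + 1 : ℕ) : ℝ) * (1 / (2 * 2 ^ f)) ≤ 1 / 2 := by
        push_cast
        rw [mul_one_div, div_le_iff₀ (by positivity)]
        linarith
      linarith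
    have h5 : (2 : ℝ) ^ (2 * e + 1) = ((2 : ℝ) ^ e) ^ 2 * 2 := by
      rw [pow_succ, ← pow_mul, mul_comm 2 e]
    rw [h5]
    have h6 := h4.trans h3
    have h7 : (0 : ℝ) < ((2 : ℝ) ^ e) ^ 2 := by positivity
    nlinarith
  have h6 : ((2 : ℝ) ^ e) ^ 2 * ((k / 2 ^ e : ℕ) + 1 : ℝ) ^ 2 ≤ (R.card : ℝ) * S.card :=
    (mul_le_mul_of_nonneg_right h4e hF₀.le).trans hprod
  have h7 : k < 2 ^ e * (k / 2 ^ e + 1) := by
    have := Nat.lt_mul_div_succ k (show 0 < 2 ^ e by positivity)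
    simpa using this
  have h7' : (k : ℝ) < 2 ^ e * ((k / 2 ^ e : ℕ) + 1) := by exact_mod_cast h7
  have h8 : (k : ℝ) ^ 2 < ((2 : ℝ) ^ e) ^ 2 * ((k / 2 ^ e : ℕ) + 1 : ℝ) ^ 2 := by
    rw [← mul_pow]
    exact pow_lt_pow_left₀ h7' hkR.le (by norm_num)
  have h9 : (R.card : ℝ) * S.card ≤ k * k := by
    have a1 : (R.card : ℝ) ≤ k := by exact_mod_cast hR.le
    have a2 : (S.card : ℝ) ≤ k := by exact_mod_cast hS.le
    exact mul_le_mul a1 a2 (Nat.cast_nonneg _) hkR.le
  have h10 : (k : ℝ) ^ 2 = k * k := sq _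
  linarith

/-! ### Communication protocols -/

/-- Deterministic two-party protocols. Alice holds `x`, Bob holds `y`. At each step one of the
two announces one bit, a function of their own input (and of the position in the tree); at a leaf
the output is fixed. -/
inductive Protocol (V : Type) : Type
  | output : Bool → Protocol V
  | alice : (V → Bool) → Protocol V → Protocol V → Protocol V
  | bob : (V → Bool) → Protocol V → Protocol V → Protocol V

namespace Protocol

variable {V : Type}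

/-- the largest number of bits announced -/
def cost : Protocol V → ℕ
  | output _ => 0
  | alice _ P Q => max P.cost Q.cost + 1
  | bob _ P Q => max P.cost Q.cost + 1

/-- the output on `(x, y)` -/
def eval : Protocol V → V → V → Bool
  | output b, _, _ => b
  | alice f P Q, x, y => if f x then P.eval x y else Q.eval x y
  | bob f P Q, x, y => if f y then P.eval x y else Q.eval x y

/-- run `P`, then `g` of its output -/
def bind : Protocol V → (Bool → Protocol V) → Protocol V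
  | output b, g => g b
  | alice f P Q, g => alice f (P.bind g) (Q.bind g)
  | bob f P Q, g => bob f (P.bind g) (Q.bind g)

theorem eval_bind (P : Protocol V) (g : Bool → Protocol V) (x y : V) :
    (P.bind g).eval x y = (g (P.eval x y)).eval x y := by
  induction P with
  | output b => rfl
  | alice f P Q ihP ihQ =>
    simp only [bind, eval]
    by_cases h : f x <;> simp [h, ihP, ihQ]
  | bob f P Q ihP ihQ =>
    simp only [bind, eval]
    by_cases h : f y <;> simp [h, ihP, ihQ]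

theorem cost_bind (P : Protocol V) (g : Bool → Protocol V) (n : ℕ) (hg : ∀ b, (g b).cost ≤ n) :
    (P.bind g).cost ≤ P.cost + n := by
  induction P with
  | output b => simpa [bind, cost] using hg b
  | alice f P Q ihP ihQ =>
    simp only [bind, cost]
    omega
  | bob f P Q ihP ihQ =>
    simp only [bind, cost]
    omega

/-- run `n` protocols and compare the number of positive outputs with `t / 2` -/
def vote (t : ℕ) : (n : ℕ) → (Fin n → Protocol V) → ℕ → Protocol V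
  | 0, _, c => output (decide (t ≤ 2 * c))
  | n + 1, P, c => (P 0).bind (fun b => vote t n (fun i => P i.succ) (c + if b then 1 else 0))

theorem cost_vote (t s : ℕ) : ∀ (n : ℕ) (P : Fin n → Protocol V) (c : ℕ),
    (∀ i, (P i).cost ≤ s) → (vote t n P c).cost ≤ n * s := by
  intro n
  induction n with
  | zero => intro P c _; simp [vote, cost]
  | succ n ih =>
    intro P c hP
    have h := cost_bind (P 0) (fun b => vote t n (fun i => P i.succ) (c + if b then 1 else 0))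
      (n * s) (fun b => ih _ _ fun i => hP i.succ)
    have h0 := hP 0
    have h1 : (n + 1) * s = s + n * s := by ring
    simp only [vote]
    omega

theorem eval_vote (t : ℕ) (x y : V) : ∀ (n : ℕ) (P : Fin n → Protocol V) (c : ℕ),
    (vote t n P c).eval x y =
      decide (t ≤ 2 * (c + ∑ i, if (P i).eval x y = true then 1 else 0)) := by
  intro n
  induction n with
  | zero => intro P c; simp [vote, eval]
  | succ n ih =>
    intro P c
    simp only [vote]
    rw [eval_bind, ih, Fin.sum_univ_succ, add_assoc]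

end Protocol

open Classical in
/-- The adjacency relation of `G` (the colouring of the pairs) is computed by a public-coin
randomised protocol exchanging at most `s` bits with error probability at most 1/3: the coins
select protocol `P i` with probability `p i`. -/
def RandomizedCost {V : Type} (G : SimpleGraph V) (s : ℝ) : Prop :=
  ∃ (I : Type) (_ : Fintype I) (p : I → ℝ) (P : I → Protocol V), (∀ i, 0 ≤ p i) ∧
    ∑ i, p i = 1 ∧ (∀ i, ((P i).cost : ℝ) ≤ s) ∧
    ∀ x y, x ≠ y → ∑ i, (if ((P i).eval x y = true ↔ G.Adj x y) then 0 else p i) ≤ 1 / 3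

/-! ### Amplification -/

/-- error indicator -/
def err {V : Type} (G : SimpleGraph V) [DecidableRel G.Adj] (P : Protocol V) (x y : V) : ℕ :=
  if (P.eval x y = true ↔ G.Adj x y) then 0 else 1

theorem err_vote {V : Type} (G : SimpleGraph V) [DecidableRel G.Adj] (t : ℕ)
    (P : Fin t → Protocol V) (x y : V) (h : err G (Protocol.vote t t P 0) x y = 1) :
    t ≤ 2 * ∑ i, err G (P i) x y := by
  unfold err at h ⊢
  rw [Protocol.eval_vote] at h
  have hne : ¬ ((decide (t ≤ 2 * (0 + ∑ i, if (P i).eval x y = true then 1 else 0)) = true) ↔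
      G.Adj x y) := by
    intro hc
    rw [if_pos hc] at h
    exact absurd h (by norm_num)
  rw [decide_eq_true_iff, zero_add] at hne
  by_cases hadj : G.Adj x y
  · have h1 : ∑ i, (if ((P i).eval x y = true ↔ G.Adj x y) then 0 else 1) +
        ∑ i, (if (P i).eval x y = true then 1 else 0) = t := by
      rw [← Finset.sum_add_distrib]
      have : ∀ i : Fin t, (if ((P i).eval x y = true ↔ G.Adj x y) then 0 else 1) +
          (if (P i).eval x y = true then 1 else 0) = 1 := by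
        intro i
        by_cases h2 : (P i).eval x y = true <;> simp [h2, hadj]
      rw [Finset.sum_congr rfl fun i _ => this i]
      simp
    have h2 : ¬ t ≤ 2 * ∑ i, (if (P i).eval x y = true then 1 else 0) := fun h3 =>
      hne ⟨fun _ => hadj, fun _ => h3⟩
    omega
  · have h2 : t ≤ 2 * ∑ i, (if (P i).eval x y = true then 1 else 0) := by
      by_contra h3
      exact hne ⟨fun h4 => absurd h4 h3, fun h4 => absurd h4 hadj⟩
    refine h2.trans (le_of_eq ?_)
    congr 1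
    refine Finset.sum_congr rfl fun i _ => ?_
    by_cases h3 : (P i).eval x y = true <;> simp [h3, hadj]

theorem amplify {V : Type} (G : SimpleGraph V) [DecidableRel G.Adj] (t : ℕ) {I : Type}
    [Fintype I] (p : I → ℝ) (P : I → Protocol V) (hp : ∀ i, 0 ≤ p i) (hp1 : ∑ i, p i = 1)
    (x y : V) (hxy : ∑ i, p i * err G (P i) x y ≤ 1 / 3) :
    ∑ ω : Fin t → I, (∏ j, p (ω j)) *
      (err G (Protocol.vote t t (fun j => P (ω j)) 0) x y : ℝ) ≤ (17 / 18) ^ t := by
  classical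
  have h1 : ∀ ω : Fin t → I, (err G (Protocol.vote t t (fun j => P (ω j)) 0) x y : ℝ) *
      (3 / 2) ^ t ≤ ∏ j, (9 / 4 : ℝ) ^ err G (P (ω j)) x y := by
    intro ω
    rw [Finset.prod_pow_eq_pow_sum]
    by_cases h : err G (Protocol.vote t t (fun j => P (ω j)) 0) x y = 1
    · have h2 := err_vote G t (fun j => P (ω j)) x y h
      rw [h, Nat.cast_one, one_mul]
      have h3 : (9 / 4 : ℝ) = (3 / 2) ^ 2 := by norm_num
      rw [h3, ← pow_mul]
      exact pow_le_pow_right₀ (by norm_num) h2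
    · have h0 : err G (Protocol.vote t t (fun j => P (ω j)) 0) x y = 0 := by
        unfold err at h ⊢
        split_ifs at h ⊢ <;> simp_all
      rw [h0, Nat.cast_zero, zero_mul]
      positivity
  have h2 : ∑ ω : Fin t → I, (∏ j, p (ω j)) *
      ((err G (Protocol.vote t t (fun j => P (ω j)) 0) x y : ℝ) * (3 / 2) ^ t) ≤
      ∑ ω : Fin t → I, (∏ j, p (ω j)) * ∏ j, (9 / 4 : ℝ) ^ err G (P (ω j)) x y :=
    Finset.sum_le_sum fun ω _ => mul_le_mul_of_nonneg_left (h1 ω)
      (Finset.prod_nonneg fun j _ => hp _)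
  have h3 : ∑ ω : Fin t → I, (∏ j, p (ω j)) * ∏ j, (9 / 4 : ℝ) ^ err G (P (ω j)) x y =
      (∑ i, p i * (9 / 4 : ℝ) ^ err G (P i) x y) ^ t := by
    rw [Fintype.sum_pow]
    refine Finset.sum_congr rfl fun ω _ => ?_
    rw [← Finset.prod_mul_distrib]
  have h4 : ∑ i, p i * (9 / 4 : ℝ) ^ err G (P i) x y ≤ 17 / 12 := by
    have h5 : ∀ i, p i * (9 / 4 : ℝ) ^ err G (P i) x y =
        p i + 5 / 4 * (p i * err G (P i) x y) := by
      intro i
      unfold err
      split_ifs <;> simp; ring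
    rw [Finset.sum_congr rfl fun i _ => h5 i, Finset.sum_add_distrib, ← Finset.mul_sum, hp1]
    linarith
  have h5 : (∑ i, p i * (9 / 4 : ℝ) ^ err G (P i) x y) ^ t ≤ (17 / 12) ^ t :=
    pow_le_pow_left₀ (Finset.sum_nonneg fun i _ => mul_nonneg (hp i) (by positivity)) h4 _
  rw [h3] at h2
  have h6 := h2.trans h5
  have h7 : ∑ ω : Fin t → I, (∏ j, p (ω j)) *
      ((err G (Protocol.vote t t (fun j => P (ω j)) 0) x y : ℝ) * (3 / 2) ^ t) =
      (∑ ω : Fin t → I, (∏ j, p (ω j)) *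
        (err G (Protocol.vote t t (fun j => P (ω j)) 0) x y : ℝ)) * (3 / 2) ^ t := by
    rw [Finset.sum_mul]
    exact Finset.sum_congr rfl fun ω _ => by ring
  rw [h7] at h6
  have h8 : (17 / 12 : ℝ) ^ t = (17 / 18) ^ t * (3 / 2) ^ t := by
    rw [← mul_pow]; norm_num
  rw [h8] at h6
  exact le_of_mul_le_mul_right h6 (by positivity)

/-! ### Deterministic protocols on a set without unbalanced pairs -/

theorem det_error {V : Type} [DecidableEq V] (G : SimpleGraph V) [DecidableRel G.Adj]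
    (η a M : ℝ) (hη : 0 ≤ η) (ha : 0 ≤ a) (hM : 0 ≤ M) (X₀ Y₀ : Finset V)
    (hX₀ : (X₀.card : ℝ) ≤ M) (hY₀ : (Y₀.card : ℝ) ≤ M)
    (hcore : ∀ A ⊆ X₀, ∀ B ⊆ Y₀, a ≤ A.card → a ≤ B.card →
      η * (A.card * B.card) ≤ (G.interedges A B).card ∧
      η * (A.card * B.card) ≤ ((∑ x ∈ A, ∑ y ∈ B, w G x y : ℕ) : ℝ)) :
    ∀ (P : Protocol V) (X Y : Finset V), X ⊆ X₀ → Y ⊆ Y₀ →
      η * (X.card * Y.card - 2 ^ P.cost * (a * M)) ≤
        ((∑ x ∈ X, ∑ y ∈ Y, err G P x y : ℕ) : ℝ) := by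
  intro P
  induction P with
  | output b =>
    intro X Y hX hY
    have haM : 0 ≤ a * M := mul_nonneg ha hM
    rw [Protocol.cost, pow_zero, one_mul]
    by_cases hXa : a ≤ X.card
    · by_cases hYa : a ≤ Y.card
      · obtain ⟨h1, h2⟩ := hcore X hX Y hY hXa hYa
        have h3 : η * (X.card * Y.card - a * M) ≤ η * (X.card * Y.card) :=
          mul_le_mul_of_nonneg_left (by linarith) hη
        refine h3.trans ?_
        cases b with
        | true =>
          refine h2.trans (le_of_eq ?_)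
          congr 1
          refine Finset.sum_congr rfl fun x _ => Finset.sum_congr rfl fun y _ => ?_
          unfold w err Protocol.eval
          by_cases h : G.Adj x y <;> simp [h]
        | false =>
          refine h1.trans (le_of_eq ?_)
          congr 1
          rw [G.interedges_def, Finset.card_filter, Finset.sum_product]
          refine Finset.sum_congr rfl fun x _ => Finset.sum_congr rfl fun y _ => ?_
          unfold err Protocol.eval
          by_cases h : G.Adj x y <;> simp [h]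
      · have h1 : (Y.card : ℝ) * X.card ≤ a * M := by
          refine mul_le_mul (not_le.mp hYa).le ?_ (Nat.cast_nonneg _) ha
          exact le_trans (by exact_mod_cast Finset.card_le_card hX) hX₀
        have h2 : η * (X.card * Y.card - a * M) ≤ 0 :=
          mul_nonpos_of_nonneg_of_nonpos hη (by linarith)
        exact h2.trans (Nat.cast_nonneg _)
    · have h1 : (X.card : ℝ) * Y.card ≤ a * M := by
        refine mul_le_mul (not_le.mp hXa).le ?_ (Nat.cast_nonneg _) ha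
        exact le_trans (by exact_mod_cast Finset.card_le_card hY) hY₀
      have h2 : η * (X.card * Y.card - a * M) ≤ 0 :=
        mul_nonpos_of_nonneg_of_nonpos hη (by linarith)
      exact h2.trans (Nat.cast_nonneg _)
  | alice f P Q ihP ihQ =>
    intro X Y hX hY
    have haM : 0 ≤ a * M := mul_nonneg ha hM
    have h1 := ihP (X.filter (fun x => f x = true)) Y ((Finset.filter_subset _ _).trans hX) hY
    have h2 := ihQ (X.filter (fun x => ¬ f x = true)) Y ((Finset.filter_subset _ _).trans hX) hY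
    have hc : ((X.filter (fun x => f x = true)).card : ℝ) +
        (X.filter (fun x => ¬ f x = true)).card = X.card := by
      exact_mod_cast Finset.card_filter_add_card_filter_not (s := X) (fun x => f x = true)
    have hsum : ∑ x ∈ X, ∑ y ∈ Y, err G (Protocol.alice f P Q) x y =
        ∑ x ∈ X.filter (fun x => f x = true), ∑ y ∈ Y, err G P x y +
        ∑ x ∈ X.filter (fun x => ¬ f x = true), ∑ y ∈ Y, err G Q x y := by
      rw [← Finset.sum_filter_add_sum_filter_not X (fun x => f x = true)]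
      congr 1
      · refine Finset.sum_congr rfl fun x hx => Finset.sum_congr rfl fun y _ => ?_
        have := (Finset.mem_filter.mp hx).2
        unfold err
        simp only [Protocol.eval, this, if_true]
      · refine Finset.sum_congr rfl fun x hx => Finset.sum_congr rfl fun y _ => ?_
        have := (Finset.mem_filter.mp hx).2
        unfold err
        simp only [Protocol.eval, this]
        rfl
    rw [hsum, Nat.cast_add]
    have e1 : (2 : ℝ) ^ P.cost ≤ 2 ^ (max P.cost Q.cost) :=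
      pow_le_pow_right₀ (by norm_num) (le_max_left _ _)
    have e2 : (2 : ℝ) ^ Q.cost ≤ 2 ^ (max P.cost Q.cost) :=
      pow_le_pow_right₀ (by norm_num) (le_max_right _ _)
    have e3 := mul_le_mul_of_nonneg_right e1 haM
    have e4 := mul_le_mul_of_nonneg_right e2 haM
    have e5 : (2 : ℝ) ^ (Protocol.alice f P Q).cost = 2 * 2 ^ (max P.cost Q.cost) := by
      rw [Protocol.cost, pow_succ]; ring
    refine le_trans ?_ (add_le_add h1 h2)
    rw [← mul_add]
    apply mul_le_mul_of_nonneg_left _ hη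
    rw [e5, ← hc]
    linarith
  | bob f P Q ihP ihQ =>
    intro X Y hX hY
    have haM : 0 ≤ a * M := mul_nonneg ha hM
    have h1 := ihP X (Y.filter (fun x => f x = true)) hX ((Finset.filter_subset _ _).trans hY)
    have h2 := ihQ X (Y.filter (fun x => ¬ f x = true)) hX ((Finset.filter_subset _ _).trans hY)
    have hc : ((Y.filter (fun x => f x = true)).card : ℝ) +
        (Y.filter (fun x => ¬ f x = true)).card = Y.card := by
      exact_mod_cast Finset.card_filter_add_card_filter_not (s := Y) (fun x => f x = true)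
    have hsum : ∑ x ∈ X, ∑ y ∈ Y, err G (Protocol.bob f P Q) x y =
        ∑ x ∈ X, ∑ y ∈ Y.filter (fun x => f x = true), err G P x y +
        ∑ x ∈ X, ∑ y ∈ Y.filter (fun x => ¬ f x = true), err G Q x y := by
      rw [← Finset.sum_add_distrib]
      refine Finset.sum_congr rfl fun x _ => ?_
      rw [← Finset.sum_filter_add_sum_filter_not Y (fun x => f x = true)]
      congr 1
      · refine Finset.sum_congr rfl fun y hy => ?_
        have := (Finset.mem_filter.mp hy).2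
        unfold err
        simp only [Protocol.eval, this, if_true]
      · refine Finset.sum_congr rfl fun y hy => ?_
        have := (Finset.mem_filter.mp hy).2
        unfold err
        simp only [Protocol.eval, this]
        rfl
    rw [hsum, Nat.cast_add]
    have e1 : (2 : ℝ) ^ P.cost ≤ 2 ^ (max P.cost Q.cost) :=
      pow_le_pow_right₀ (by norm_num) (le_max_left _ _)
    have e2 : (2 : ℝ) ^ Q.cost ≤ 2 ^ (max P.cost Q.cost) :=
      pow_le_pow_right₀ (by norm_num) (le_max_right _ _)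
    have e3 := mul_le_mul_of_nonneg_right e1 haM
    have e4 := mul_le_mul_of_nonneg_right e2 haM
    have e5 : (2 : ℝ) ^ (Protocol.bob f P Q).cost = 2 * 2 ^ (max P.cost Q.cost) := by
      rw [Protocol.cost, pow_succ]; ring
    refine le_trans ?_ (add_le_add h1 h2)
    rw [← mul_add]
    apply mul_le_mul_of_nonneg_left _ hη
    rw [e5, ← hc]
    linarith


/-! ### Randomised protocols need linear cost -/

theorem exists_good {Ω : Type} [Fintype Ω] (W : Ω → ℝ) (hW : ∀ ω, 0 ≤ W ω) (hW1 : ∑ ω, W ω = 1)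
    (E : Ω → ℝ) (b : ℝ) (h : ∑ ω, W ω * E ω ≤ b) : ∃ ω, E ω ≤ b := by
  by_contra hcon
  push Not at hcon
  have h1 : ∑ ω, W ω * b < ∑ ω, W ω * E ω := by
    apply Finset.sum_lt_sum
    · intro ω _
      exact mul_le_mul_of_nonneg_left (hcon ω).le (hW ω)
    · have : ∃ ω, 0 < W ω := by
        by_contra h0
        push Not at h0
        have : ∑ ω, W ω ≤ 0 := Finset.sum_nonpos fun ω _ => h0 ω
        linarith
      obtain ⟨ω, hω⟩ := this
      exact ⟨ω, Finset.mem_univ _, mul_lt_mul_of_pos_left (hcon ω) hω⟩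
  rw [← Finset.sum_mul, hW1, one_mul] at h1
  linarith

theorem exists_poly_lt (C : ℕ) {δ : ℝ} (hδ : 0 < δ) :
    ∃ k₂ : ℕ, ∀ k ≥ k₂, 32 * ((C : ℝ) * k ^ 2) < 2 ^ (δ * k / 2) := by
  set r : ℝ := 2 ^ (δ / 2) with hr
  have hr1 : 1 < r := Real.one_lt_rpow (by norm_num) (by positivity)
  have h1 : Filter.Tendsto (fun n : ℕ => (n : ℝ) ^ 2 / r ^ n) Filter.atTop (nhds 0) :=
    tendsto_pow_const_div_const_pow_of_one_lt 2 hr1
  have hC : (0 : ℝ) < 1 / (32 * (C + 1)) := by positivity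
  obtain ⟨k₂, hk₂⟩ := Filter.eventually_atTop.mp (h1.eventually (gt_mem_nhds hC))
  refine ⟨k₂, fun k hk => ?_⟩
  have h2 := hk₂ k hk
  have hrk : (0 : ℝ) < r ^ k := by positivity
  rw [div_lt_div_iff₀ hrk (by positivity)] at h2
  have h3 : (2 : ℝ) ^ (δ * k / 2) = r ^ k := by
    rw [hr, ← Real.rpow_natCast, ← Real.rpow_mul (by norm_num)]; congr 1; ring
  rw [h3]
  have h4 : (0 : ℝ) ≤ (k : ℝ) ^ 2 := by positivity
  nlinarith

theorem randomized (c : ℝ) (hc : 0 < c) : ∃ ε : ℝ, 0 < ε ∧ ∃ k₀ : ℕ, ∀ k ≥ k₀,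
    ∀ (V : Type) [Fintype V] (G : SimpleGraph V), RandomizedCost G (ε * k) →
      (2 : ℝ) ^ (c * k) ≤ Fintype.card V →
      (∃ S, G.IsNClique k S) ∨ (∃ S, G.IsNIndepSet k S) := by
  classical
  obtain ⟨δ, hδ, η, hη, C, k₀, hcore⟩ := core c hc
  obtain ⟨t, ht⟩ := exists_pow_lt_of_lt_one (show (0 : ℝ) < η / 2 by positivity)
    (show (17 / 18 : ℝ) < 1 by norm_num)
  obtain ⟨k₁, hk₁⟩ := exists_nat_gt (40 / δ)
  obtain ⟨k₂, hk₂⟩ := exists_poly_lt C hδ
  refine ⟨δ / (8 * (t + 1)), by positivity, max k₀ (max k₁ k₂), ?_⟩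
  intro k hk V _ G hG hV
  have hkk0 : k ≥ k₀ := (le_max_left _ _).trans hk
  have hkk1 : (k₁ : ℝ) ≤ k := by
    exact_mod_cast ((le_max_left k₁ k₂).trans (le_max_right _ _)).trans hk
  have hpoly := hk₂ k (((le_max_right k₁ k₂).trans (le_max_right _ _)).trans hk)
  have hkδ : 40 < δ * k := by
    have h1 : 40 / δ < k := lt_of_lt_of_le hk₁ hkk1
    rw [div_lt_iff₀ hδ] at h1; linarith
  by_contra hcon
  push Not at hcon
  obtain ⟨hcl, hind⟩ := hcon
  obtain ⟨U, hU, hUc⟩ := hcore k hkk0 V G hcl hind hV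
  obtain ⟨I, _, p, P, hp, hp1, hPc, hPe⟩ := hG
  have hU2 : (2 : ℝ) ≤ U.card := by
    refine le_trans ?_ hU
    calc (2 : ℝ) = 2 ^ (1 : ℝ) := by rw [Real.rpow_one]
      _ ≤ _ := Real.rpow_le_rpow_of_exponent_le (by norm_num) (by linarith)
  have hU2' : 2 ≤ U.card := by exact_mod_cast hU2
  obtain ⟨X, hXU, hXc⟩ := Finset.exists_subset_card_eq (s := U) (n := U.card / 2) (by omega)
  obtain ⟨Y, hYU, hYc⟩ := Finset.exists_subset_card_eq (s := U \ X) (n := U.card / 2) (by
    rw [Finset.card_sdiff_of_subset hXU]; omega)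
  have hYU' : Y ⊆ U := hYU.trans Finset.sdiff_subset
  have hXY : Disjoint X Y := by
    rw [Finset.disjoint_left]
    intro x hx hy
    exact (Finset.mem_sdiff.mp (hYU hy)).2 hx
  set u : ℝ := (U.card : ℝ) with hu
  have hu0 : 0 < u := by linarith
  have hX4 : u / 4 ≤ X.card := by
    have : U.card ≤ 4 * X.card := by omega
    have : (U.card : ℝ) ≤ 4 * X.card := by exact_mod_cast this
    linarith
  have hY4 : u / 4 ≤ Y.card := by
    have : U.card ≤ 4 * Y.card := by omega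
    have : (U.card : ℝ) ≤ 4 * Y.card := by exact_mod_cast this
    linarith
  have hXu : (X.card : ℝ) ≤ u := Nat.cast_le.mpr (Finset.card_le_card hXU)
  have hYu : (Y.card : ℝ) ≤ u := Nat.cast_le.mpr (Finset.card_le_card hYU')
  set a : ℝ := ((C * k : ℕ) : ℝ) with ha
  have ha0 : 0 ≤ a := Nat.cast_nonneg _
  have hcore' : ∀ A ⊆ X, ∀ B ⊆ Y, a ≤ A.card → a ≤ B.card →
      η * (A.card * B.card) ≤ (G.interedges A B).card ∧
      η * (A.card * B.card) ≤ ((∑ x ∈ A, ∑ y ∈ B, w G x y : ℕ) : ℝ) := by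
    intro A hA B hB hAc hBc
    have hAB : Disjoint A B :=
      Finset.disjoint_of_subset_left hA (Finset.disjoint_of_subset_right hB hXY)
    obtain ⟨h1, h2⟩ := hUc A (hA.trans hXU) B (hB.trans hYU') hAB (Nat.cast_le.mp hAc)
      (Nat.cast_le.mp hBc)
    rcases Nat.eq_zero_or_pos A.card with hA0 | hA0
    · rw [hA0, Nat.cast_zero, zero_mul, mul_zero]
      exact ⟨Nat.cast_nonneg _, Nat.cast_nonneg _⟩
    rcases Nat.eq_zero_or_pos B.card with hB0 | hB0
    · rw [hB0, Nat.cast_zero, mul_zero, mul_zero]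
      exact ⟨Nat.cast_nonneg _, Nat.cast_nonneg _⟩
    have hApos : (0 : ℝ) < A.card := Nat.cast_pos.mpr hA0
    have hBpos : (0 : ℝ) < B.card := Nat.cast_pos.mpr hB0
    have hdens : (G.edgeDensity A B : ℝ) = (G.interedges A B).card / (A.card * B.card) := by
      rw [G.edgeDensity_def]; push_cast; rfl
    have hsum := interedges_card G A B
    have hsumR : ((G.interedges A B).card : ℝ) + (∑ x ∈ A, ∑ y ∈ B, w G x y : ℕ) =
        A.card * B.card := by exact_mod_cast hsum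
    rw [hdens, le_div_iff₀ (by positivity)] at h1
    rw [hdens, div_le_iff₀ (by positivity)] at h2
    exact ⟨h1, by linarith⟩
  -- averaging
  set W : (Fin t → I) → ℝ := fun ω => ∏ j, p (ω j) with hW
  set Q : (Fin t → I) → Protocol V := fun ω => Protocol.vote t t (fun j => P (ω j)) 0 with hQ
  have hW1 : ∑ ω, W ω = 1 := by
    rw [hW, ← Fintype.sum_pow, hp1, one_pow]
  have havg : ∑ ω, W ω * ((∑ x ∈ X, ∑ y ∈ Y, err G (Q ω) x y : ℕ) : ℝ) ≤
      (17 / 18) ^ t * (X.card * Y.card) := by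
    have h1 : ∑ ω, W ω * ((∑ x ∈ X, ∑ y ∈ Y, err G (Q ω) x y : ℕ) : ℝ) =
        ∑ x ∈ X, ∑ y ∈ Y, ∑ ω, W ω * (err G (Q ω) x y : ℝ) := by
      push_cast
      simp_rw [Finset.mul_sum]
      rw [Finset.sum_comm]
      refine Finset.sum_congr rfl fun x _ => ?_
      rw [Finset.sum_comm]
    rw [h1]
    have h2 : ∀ x ∈ X, ∀ y ∈ Y, ∑ ω, W ω * (err G (Q ω) x y : ℝ) ≤ (17 / 18) ^ t := by
      intro x hx y hy
      have hne : x ≠ y := fun h => Finset.disjoint_left.mp hXY hx (h ▸ hy)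
      refine amplify G t p P hp hp1 x y ?_
      refine le_trans (le_of_eq ?_) (hPe x y hne)
      refine Finset.sum_congr rfl fun i _ => ?_
      unfold err
      by_cases h : ((P i).eval x y = true ↔ G.Adj x y)
      · simp [h]
      · rw [if_neg h, if_neg h]; simp
    calc ∑ x ∈ X, ∑ y ∈ Y, ∑ ω, W ω * (err G (Q ω) x y : ℝ) ≤
        ∑ x ∈ X, ∑ y ∈ Y, (17 / 18 : ℝ) ^ t :=
          Finset.sum_le_sum fun x hx => Finset.sum_le_sum fun y hy => h2 x hx y hy
      _ = _ := by simp only [Finset.sum_const, nsmul_eq_mul]; ring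
  obtain ⟨ω, hω⟩ := exists_good W (fun ω => Finset.prod_nonneg fun j _ => hp _) hW1 _ _ havg
  have hdet := det_error G η a u hη.le ha0 hu0.le X Y hXu hYu hcore' (Q ω)
    X Y subset_rfl subset_rfl
  have hcomb : η * (X.card * Y.card - 2 ^ (Q ω).cost * (a * u)) ≤
      η / 2 * (X.card * Y.card) :=
    (hdet.trans hω).trans (mul_le_mul_of_nonneg_right ht.le (by positivity))
  have hcomb2 : (X.card : ℝ) * Y.card / 2 ≤ 2 ^ (Q ω).cost * (a * u) := by
    have h1 : η * (X.card * Y.card - 2 ^ (Q ω).cost * (a * u)) ≤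
        η * (X.card * Y.card / 2) := by
      refine hcomb.trans (le_of_eq ?_); ring
    have h2 := le_of_mul_le_mul_left h1 hη
    linarith
  have hkR : (0 : ℝ) < k := by
    by_contra h
    have : δ * (k : ℝ) ≤ 0 := mul_nonpos_of_nonneg_of_nonpos hδ.le (not_lt.mp h)
    linarith
  have hcost : (Q ω).cost ≤ t * ⌊δ / (8 * (t + 1)) * k⌋₊ := by
    apply Protocol.cost_vote
    intro j
    exact Nat.le_floor (hPc (ω j))
  have hcostR : (2 : ℝ) ^ (Q ω).cost ≤ 2 ^ (δ * k / 8) := by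
    rw [← Real.rpow_natCast]
    apply Real.rpow_le_rpow_of_exponent_le (by norm_num)
    have h1 : ((Q ω).cost : ℝ) ≤ t * ⌊δ / (8 * (t + 1)) * k⌋₊ := by exact_mod_cast hcost
    have h2 : ((⌊δ / (8 * (t + 1)) * k⌋₊ : ℕ) : ℝ) ≤ δ / (8 * (t + 1)) * k :=
      Nat.floor_le (by positivity)
    have h3 : (t : ℝ) * ⌊δ / (8 * (t + 1)) * k⌋₊ ≤ t * (δ / (8 * (t + 1)) * k) :=
      mul_le_mul_of_nonneg_left h2 (Nat.cast_nonneg _)
    have h4 : (t : ℝ) * (δ / (8 * (t + 1)) * k) ≤ δ * k / 8 := by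
      have h5 : (t : ℝ) * (δ / (8 * (t + 1)) * k) = (δ * k / 8) * (t / (t + 1)) := by
        field_simp
      rw [h5]
      have h6 : (t : ℝ) / (t + 1) ≤ 1 := by
        rw [div_le_one (by positivity)]; linarith
      exact mul_le_of_le_one_right (by positivity) h6
    linarith
  have hXYge : u ^ 2 / 16 ≤ (X.card : ℝ) * Y.card := by
    have h1 := mul_le_mul hX4 hY4 (by positivity) (Nat.cast_nonneg _)
    have h2 : u / 4 * (u / 4) = u ^ 2 / 16 := by ring
    rw [h2] at h1; exact h1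
  have hfin : u ^ 2 / 32 ≤ 2 ^ (δ * k / 8) * (a * u) := by
    have h1 := mul_le_mul_of_nonneg_right hcostR
      (show (0 : ℝ) ≤ a * u by positivity)
    linarith
  have hu1 : u ≤ 32 * (2 ^ (δ * k / 8) * a) := by
    have h1 : u * u ≤ (32 * (2 ^ (δ * k / 8) * a)) * u := by
      have h2 : u ^ 2 = u * u := sq u
      have h3 : (2 : ℝ) ^ (δ * k / 8) * (a * u) = 2 ^ (δ * k / 8) * a * u := by ring
      rw [h2, h3] at hfin
      linarith
    exact le_of_mul_le_mul_right h1 hu0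
  have h15 : (2 : ℝ) ^ (δ * k) ≤ 32 * (2 ^ (δ * k / 8) * a) := hU.trans hu1
  have h16 : (2 : ℝ) ^ (δ * k / 8) * (32 * a) < 2 ^ (δ * k / 8) * 2 ^ (δ * k / 2) := by
    apply mul_lt_mul_of_pos_left _ (by positivity)
    refine lt_of_le_of_lt ?_ hpoly
    rw [ha]; push_cast
    have hk1 : (1 : ℝ) ≤ k := by
      have : 0 < k := by exact_mod_cast hkR
      exact_mod_cast this
    have hkk : (k : ℝ) ≤ k ^ 2 := by nlinarith
    have := mul_le_mul_of_nonneg_left hkk (Nat.cast_nonneg (α := ℝ) C)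
    linarith
  have h17 : (2 : ℝ) ^ (δ * k / 8) * 2 ^ (δ * k / 2) ≤ 2 ^ (δ * k) := by
    rw [← Real.rpow_add (by norm_num)]
    apply Real.rpow_le_rpow_of_exponent_le (by norm_num)
    linarith
  have h18 : 32 * (2 ^ (δ * k / 8) * a) = (2 : ℝ) ^ (δ * k / 8) * (32 * a) := by ring
  linarith

/-- (1) Every large colouring without homogeneous `k`-sets contains an exponentially large vertex
set in which both colours have positive density between any two disjoint sets of `C k`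
vertices. (2) Colourings computed by randomised protocols exchanging `ε k` bits have homogeneous
`k`-sets. -/
theorem result :
    (∀ c : ℝ, 0 < c → ∃ δ : ℝ, 0 < δ ∧ ∃ η : ℝ, 0 < η ∧ ∃ C k₀ : ℕ, ∀ k ≥ k₀,
      ∀ (V : Type) [Fintype V] [DecidableEq V] (G : SimpleGraph V) [DecidableRel G.Adj],
        G.CliqueFree k → G.IndepSetFree k → (2 : ℝ) ^ (c * k) ≤ Fintype.card V →
        ∃ U : Finset V, (2 : ℝ) ^ (δ * k) ≤ U.card ∧ ∀ A ⊆ U, ∀ B ⊆ U, Disjoint A B →
          C * k ≤ A.card → C * k ≤ B.card →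
          η ≤ (G.edgeDensity A B : ℝ) ∧ (G.edgeDensity A B : ℝ) ≤ 1 - η) ∧
    (∀ c : ℝ, 0 < c → ∃ ε : ℝ, 0 < ε ∧ ∃ k₀ : ℕ, ∀ k ≥ k₀,
      ∀ (V : Type) [Fintype V] (G : SimpleGraph V), RandomizedCost G (ε * k) →
        (2 : ℝ) ^ (c * k) ≤ Fintype.card V →
        (∃ S, G.IsNClique k S) ∨ (∃ S, G.IsNIndepSet k S)) :=
  ⟨fun c hc => core c hc, fun c hc => randomized c hc⟩

end Pool.Agent.Results.MP_28724c_co.BipartiteCore
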