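import Pool.Agent.H818R2.Ram.Extra

/-!
MP_28724c_co: consecutive Ramsey numbers are within a bounded factor. `R k l` is the least `n` such
that every graph on `Fin n` has a clique of size `k` or an independent set of size `l`
(`Pool/Agent/H818R2/Ram/Defs.lean`), `diagRate k = log R(k,k) / k`.
-/

open Filter Set Topology Pool.Agent.H818R2.Ram

theorem Pool.Agent.Results.MP_28724c_co.ConsecutiveRatios.result :
    -- `R k l` is the Ramsey number
    (∀ k l : ℕ, IsLeast {n : ℕ | Arrows n k l} (R k l)) ∧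
    -- diagonal: explicit constants, all k
    (∀ k : ℕ, 1 ≤ k → R k (k + 1) ≤ 26 * R k k ∧ R (k + 1) (k + 1) ≤ 52 * R k k) ∧
    -- all Ramsey numbers
    (∀ k l : ℕ, 1 ≤ k → 1 ≤ l → (R k (l + 1) : ℝ) ≤ 1025 * (1 + (k : ℝ) / l) * R k l) ∧
    -- weak form of the diagonal conjecture
    (∀ k l : ℕ, 2 ≤ k → k ≤ l → (R (k - 1) (l + 1) : ℝ) ≤ 2050 * R k l) ∧
    -- near the diagonal
    (∀ k l : ℕ, 1 ≤ k → 1 ≤ l →
      |Real.log (R k l) - Real.log (R k k)| ≤ Real.log 52 * |(l : ℝ) - k|) ∧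
    -- a positive proportion of the steps is large
    (∀ N : ℕ, 3 ≤ N → N ≤ 22 * ((Finset.Ico 1 N).filter
      (fun k => 2 * (R k k) ^ 4 ≤ (R (k + 1) (k + 1)) ^ 4)).card) ∧
    -- the exponents are Lipschitz on the logarithmic scale
    (∀ k m : ℕ, 1 ≤ k → k ≤ m →
      |diagRate m - diagRate k| ≤ Real.log 52 * (((m : ℝ) - k) / m)) ∧
    -- changing k by o(k) does not change the exponent
    (∀ d : ℕ → ℕ, Tendsto (fun k => (d k : ℝ) / k) atTop (𝓝 0) →
      Tendsto (fun k => diagRate (k + d k) - diagRate k) atTop (𝓝 0)) ∧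
    -- the limit points of the exponents fill an interval
    {x | MapClusterPt x atTop diagRate} = Icc (liminf diagRate atTop) (limsup diagRate atTop) :=
  ⟨R_isLeast, fun _ hk => ⟨diag_ratio hk, diag_ratio2 hk⟩, fun _ _ hk hl => uniform hk hl,
    fun _ _ hk hkl => weak_diagonal hk hkl, fun _ _ hk hl => near_diag hk hl,
    fun _ hN => proportion hN, fun _ _ hk hkm => diagRate_lip hk hkm,
    fun _ hd => diagRate_stable hd, diagRate_clusterPts⟩
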