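import Pool.Agent.H111R2.Final
import Pool.Agent.H111R2.DataXF

namespace Pool.Agent.Results.MP_28724c_co.DiagUpper3

open Pool.Agent.H111R2

/-- Every colouring of the edges of the complete graph on `n` vertices with two colours (the edges of
`G` are red, the edges of its complement are blue) contains a `K_k` all of whose edges receive the
same colour. -/
def Arrows (n k : ℕ) : Prop :=
  ∀ G : SimpleGraph (Fin n), (∃ s : Finset (Fin n), G.IsNClique k s) ∨
    (∃ s : Finset (Fin n), Gᶜ.IsNClique k s)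

/-- The diagonal Ramsey number `R(k,k)`: the least positive `n` with `Arrows n k`. -/
noncomputable def R (k : ℕ) : ℕ := sInf {n : ℕ | 0 < n ∧ Arrows n k}

/-- **Diagonal Ramsey numbers.** `R(k,k) < 3.305 ^ k` for all sufficiently large `k`
(and the set defining `R(k,k)` is non-empty, so that `R(k,k)` has the Ramsey property). -/
theorem result : ∃ K : ℕ, ∀ k : ℕ, K ≤ k →
    (0 < R k ∧ Arrows (R k) k) ∧ (R k : ℝ) < (3.305 : ℝ) ^ k := by
  have hexp : Real.exp (1.19541 : ℝ) < 3.305 := by
    have h1 := Real.exp_one_lt_d9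
    have h2 := Real.exp_bound' (x := 0.19541) (by norm_num) (by norm_num) (n := 10) (by norm_num)
    have h3 : Real.exp (1.19541 : ℝ) = Real.exp 1 * Real.exp 0.19541 := by
      rw [← Real.exp_add]
      norm_num
    have h4 : Real.exp (0.19541 : ℝ) < 1.21582 := by
      refine lt_of_le_of_lt h2 ?_
      simp only [Finset.sum_range_succ, Finset.sum_range_zero, Nat.factorial]
      norm_num
    rw [h3]
    calc Real.exp 1 * Real.exp 0.19541 ≤ 2.7182818286 * 1.21582 :=
          mul_le_mul h1.le h4.le (Real.exp_pos _).le (by norm_num)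
      _ < 3.305 := by norm_num
  obtain ⟨K, hK⟩ := ramsey_bound_of (v := 1.19541) (c := 3.305) (by norm_num) hexp (by
    obtain ⟨C, hC, h⟩ := main_of_check3 mbX maX cellsX checkX
    refine ⟨C, hC, ?_⟩
    intro k V _ G S h1 h2
    have h3 := (h k k G S h1 h2 _ memX).1
    refine h3.trans ?_
    unfold Bd
    apply mul_le_mul_of_nonneg_left _ hC.le
    apply Real.exp_le_exp.mpr
    push_cast
    have : (0:ℝ) ≤ k := by positivity
    nlinarith)
  refine ⟨K, fun k hk => ?_⟩
  obtain ⟨n, hn0, hn, harr⟩ := hK k hk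
  have hmem : n ∈ {n : ℕ | 0 < n ∧ Arrows n k} := ⟨hn0, harr⟩
  have h1 : R k ∈ {n : ℕ | 0 < n ∧ Arrows n k} := Nat.sInf_mem ⟨n, hmem⟩
  have h2 : R k ≤ n := Nat.sInf_le hmem
  refine ⟨h1, lt_of_le_of_lt ?_ hn⟩
  exact_mod_cast h2

end Pool.Agent.Results.MP_28724c_co.DiagUpper3
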