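import Mathlib
import Pool.Agent.H599R2.Ram.Core

namespace Pool.Agent.Results.MP_28724c_co.VCDimension

open SimpleGraph Finset
open Pool.Agent.H599R2.Ram

variable {V : Type} [DecidableEq V] (G : SimpleGraph V) [DecidableRel G.Adj]

/-- number of elements of `Y` distinguishing `a` and `b` -/
def dis (Y : Finset V) (a b : V) : ℕ := (Y.filter (fun y => ¬ (G.Adj a y ↔ G.Adj b y))).card

omit [DecidableEq V] in
theorem dis_symm (Y : Finset V) (a b : V) : dis G Y a b = dis G Y b a := by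
  unfold dis
  congr 1
  ext y
  simp only [Finset.mem_filter]
  tauto

omit [DecidableEq V] in
theorem dis_self (Y : Finset V) (a : V) : dis G Y a a = 0 := by
  unfold dis; simp

theorem distinguish (T Y : Finset V) (s : ℕ) (ε : ℝ) (hε1 : ε ≤ 1)
    (hsep : ∀ a ∈ T, ∀ b ∈ T, a ≠ b → ε * Y.card ≤ dis G Y a b) (hY : Y.Nonempty)
    (hcount : (T.card : ℝ) ^ 2 * (1 - ε) ^ s < 1) :
    ∃ Z : Fin s → V, (∀ i, Z i ∈ Y) ∧ ∀ a ∈ T, ∀ b ∈ T, a ≠ b →
      ∃ i, ¬ (G.Adj a (Z i) ↔ G.Adj b (Z i)) := by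
  by_contra hcon
  push Not at hcon
  have hYpos : (0 : ℝ) < Y.card := by exact_mod_cast hY.card_pos
  set bad : V × V → Finset (Fin s → V) := fun p =>
    Fintype.piFinset (fun _ : Fin s => Y.filter (fun y => G.Adj p.1 y ↔ G.Adj p.2 y)) with hbad
  have hcover : Fintype.piFinset (fun _ : Fin s => Y) ⊆ T.offDiag.biUnion bad := by
    intro Z hZ
    obtain ⟨a, ha, b, hb, hab, h⟩ := hcon Z (Fintype.mem_piFinset.mp hZ)
    refine Finset.mem_biUnion.mpr ⟨(a, b), Finset.mem_offDiag.mpr ⟨ha, hb, hab⟩, ?_⟩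
    rw [hbad, Fintype.mem_piFinset]
    intro i
    exact Finset.mem_filter.mpr ⟨Fintype.mem_piFinset.mp hZ i, h i⟩
  have h1 := (Finset.card_le_card hcover).trans Finset.card_biUnion_le
  rw [Fintype.card_piFinset] at h1
  simp only [Finset.prod_const, Finset.card_univ, Fintype.card_fin] at h1
  have h2 : ∀ p ∈ T.offDiag, ((bad p).card : ℝ) ≤ ((1 - ε) * Y.card) ^ s := by
    intro p hp
    obtain ⟨ha, hb, hab⟩ := Finset.mem_offDiag.mp hp
    rw [hbad]
    simp only [Fintype.card_piFinset, Finset.prod_const, Finset.card_univ, Fintype.card_fin]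
    push_cast
    apply pow_le_pow_left₀ (Nat.cast_nonneg _)
    have h3 := hsep p.1 ha p.2 hb hab
    have h4 : (Y.filter (fun y => G.Adj p.1 y ↔ G.Adj p.2 y)).card + dis G Y p.1 p.2 =
        Y.card := Finset.card_filter_add_card_filter_not _
    have h5 : ((Y.filter (fun y => G.Adj p.1 y ↔ G.Adj p.2 y)).card : ℝ) +
        dis G Y p.1 p.2 = Y.card := by exact_mod_cast h4
    linarith
  have h3 : ((Y.card : ℝ)) ^ s ≤ ∑ p ∈ T.offDiag, ((bad p).card : ℝ) := by exact_mod_cast h1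
  have h4 := h3.trans (Finset.sum_le_sum h2)
  rw [Finset.sum_const, nsmul_eq_mul] at h4
  have h5 : (T.offDiag.card : ℝ) ≤ (T.card : ℝ) ^ 2 := by
    have : T.offDiag.card ≤ T.card ^ 2 := by
      rw [Finset.offDiag_card, sq]; exact Nat.sub_le _ _
    exact_mod_cast this
  have h6 : 0 ≤ ((1 - ε) * (Y.card : ℝ)) ^ s :=
    pow_nonneg (mul_nonneg (by linarith) hYpos.le) _
  have h7 := h4.trans (mul_le_mul_of_nonneg_right h5 h6)
  rw [mul_pow] at h7
  have h8 : (0 : ℝ) < (Y.card : ℝ) ^ s := by positivity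
  have h9 : (T.card : ℝ) ^ 2 * (1 - ε) ^ s * (Y.card : ℝ) ^ s < 1 * (Y.card : ℝ) ^ s :=
    mul_lt_mul_of_pos_right hcount h8
  linarith

theorem trace_count (T R : Finset V) (j : ℕ)
    (hinj : ∀ a ∈ T, ∀ b ∈ T, a ≠ b → ∃ y ∈ R, ¬ (G.Adj a y ↔ G.Adj b y))
    (hsh : ∀ P ⊆ R, (∀ Q ⊆ P, ∃ a ∈ T, ∀ y ∈ P, (G.Adj a y ↔ y ∈ Q)) →
      2 ^ j * P.card ≤ R.card) :
    (T.card : ℝ) ≤ 2 ^ ((R.card : ℝ) * ((j + 2) / 2 ^ j)) := by
  set 𝒜 : Finset (Finset V) := T.image (fun a => R.filter (fun y => G.Adj a y)) with h𝒜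
  have hcard : 𝒜.card = T.card := by
    apply Finset.card_image_of_injOn
    intro a ha b hb hab
    by_contra hne
    obtain ⟨y, hy, hyy⟩ := hinj a ha b hb hne
    apply hyy
    have h1 : y ∈ R.filter (fun y => G.Adj a y) ↔ y ∈ R.filter (fun y => G.Adj b y) := by
      have := hab
      simp only at this
      rw [this]
    simpa [hy] using h1
  have hsub : 𝒜.shatterer ⊆ R.powerset.filter (fun P => 2 ^ j * P.card ≤ R.card) := by
    intro P hP
    have hP' : 𝒜.Shatters P := Finset.mem_shatterer.mp hP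
    have hPR : P ⊆ R := by
      obtain ⟨t, ht, hPt⟩ := hP'.exists_superset
      obtain ⟨a, _, rfl⟩ := Finset.mem_image.mp ht
      exact hPt.trans (Finset.filter_subset _ _)
    refine Finset.mem_filter.mpr ⟨Finset.mem_powerset.mpr hPR, hsh P hPR ?_⟩
    intro Q hQ
    obtain ⟨u, hu, hPu⟩ := hP' hQ
    obtain ⟨a, ha, rfl⟩ := Finset.mem_image.mp hu
    refine ⟨a, ha, fun y hy => ?_⟩
    constructor
    · intro hadj
      rw [← hPu]
      exact Finset.mem_inter.mpr ⟨hy, Finset.mem_filter.mpr ⟨hPR hy, hadj⟩⟩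
    · intro hyQ
      rw [← hPu] at hyQ
      exact (Finset.mem_filter.mp (Finset.mem_inter.mp hyQ).2).2
  have h1 : (T.card : ℝ) ≤ ((R.powerset.filter (fun P => 2 ^ j * P.card ≤ R.card)).card : ℝ) := by
    rw [← hcard]
    exact_mod_cast (Finset.card_le_card_shatterer 𝒜).trans (Finset.card_le_card hsub)
  exact h1.trans (card_small_subsets R j)

/-- pairwise separated vertices -/
def Sep (Y : Finset V) (θ : ℝ) (T : Finset V) : Prop :=
  ∀ a ∈ T, ∀ b ∈ T, a ≠ b → θ ≤ dis G Y a b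

/-- a separated set which cannot be enlarged -/
theorem exists_net (X Y : Finset V) (θ : ℝ) (hθ : 0 < θ) :
    ∃ T ⊆ X, (∀ a ∈ T, ∀ b ∈ T, a ≠ b → θ ≤ dis G Y a b) ∧
      ∀ x ∈ X, ∃ a ∈ T, (dis G Y x a : ℝ) < θ := by
  classical
  obtain ⟨T, hT, hmax⟩ := Finset.exists_max_image
    (X.powerset.filter (fun T => Sep G Y θ T)) Finset.card
    ⟨∅, by simp [Sep]⟩
  obtain ⟨hTX, hTs⟩ := Finset.mem_filter.mp hT
  refine ⟨T, Finset.mem_powerset.mp hTX, hTs, ?_⟩
  intro x hx
  by_contra hcon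
  push Not at hcon
  have hxT : x ∉ T := by
    intro h
    have := hcon x h
    rw [dis_self, Nat.cast_zero] at this
    linarith
  have h1 : insert x T ∈ X.powerset.filter (fun T => Sep G Y θ T) := by
    refine Finset.mem_filter.mpr ⟨Finset.mem_powerset.mpr
      (Finset.insert_subset hx (Finset.mem_powerset.mp hTX)), ?_⟩
    intro a ha b hb hab
    rcases Finset.mem_insert.mp ha with ha' | ha' <;> rcases Finset.mem_insert.mp hb with hb' | hb'
    · exact absurd (ha'.trans hb'.symm) hab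
    · rw [ha']; exact hcon b hb'
    · rw [dis_symm, hb']; exact hcon a ha'
    · exact hTs a ha' b hb' hab
  have h2 := hmax _ h1
  rw [Finset.card_insert_of_notMem hxT] at h2
  omega

/-- few neighbourhood classes: a nearly homogeneous pair -/
theorem exists_pair (X Y : Finset V) (s j : ℕ) (ε : ℝ) (hε0 : 0 < ε) (hε1 : ε ≤ 1)
    (hX : X.Nonempty) (hY : Y.Nonempty) (hsY : s ≤ Y.card)
    (hs : 2 * (1 + (s : ℝ) * ((j + 2) / 2 ^ j)) < ε * s)
    (hsh : ∀ P ⊆ Y, (∀ Q ⊆ P, ∃ a ∈ X, ∀ y ∈ P, (G.Adj a y ↔ y ∈ Q)) → 2 ^ j * P.card ≤ s) :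
    ∃ A ⊆ X, ∃ B ⊆ Y, (X.card : ℝ) ≤ 2 ^ ((s : ℝ) * ((j + 2) / 2 ^ j)) * A.card ∧
      Y.card ≤ 2 * B.card ∧
      ((∀ x ∈ A, ((B.filter (fun y => ¬ G.Adj x y)).card : ℝ) < 2 * ε * B.card) ∨
        (∀ x ∈ A, ((B.filter (fun y => G.Adj x y)).card : ℝ) < 2 * ε * B.card)) := by
  classical
  have hYpos : (0 : ℝ) < Y.card := by exact_mod_cast hY.card_pos
  have h2j : (0 : ℝ) < 2 ^ j := by positivity
  obtain ⟨T, hTX, hTs, hTn⟩ := exists_net G X Y (ε * Y.card) (by positivity)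
  set θ : ℝ := (s : ℝ) * ((j + 2) / 2 ^ j) with hθ
  have hθ0 : 0 ≤ θ := by positivity
  -- the net is small
  have hT : (T.card : ℝ) ≤ 2 ^ (θ) := by
    by_contra hcon
    rw [not_le] at hcon
    set b : ℕ := ⌊(2 : ℝ) ^ (θ)⌋₊ with hb
    have hpos : (0 : ℝ) < 2 ^ (θ) := by positivity
    have hbT : b + 1 ≤ T.card := by
      have : b < T.card := (Nat.floor_lt hpos.le).mpr hcon
      omega
    obtain ⟨T', hT'T, hT'c⟩ := Finset.exists_subset_card_eq hbT
    have hble : (b : ℝ) ≤ 2 ^ (θ) := Nat.floor_le hpos.le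
    have hblt : (2 : ℝ) ^ (θ) < b + 1 := Nat.lt_floor_add_one _
    have h1le : (1 : ℝ) ≤ 2 ^ (θ) := Real.one_le_rpow (by norm_num) (by positivity)
    have hcount : (T'.card : ℝ) ^ 2 * (1 - ε) ^ s < 1 := by
      have h1 : (T'.card : ℝ) ≤ Real.exp (1 + θ) := by
        rw [hT'c]; push_cast
        have h2 : (2 : ℝ) ^ (θ) ≤ Real.exp (θ) := by
          rw [Real.rpow_def_of_pos (by norm_num)]
          apply Real.exp_le_exp.mpr
          have h3 : Real.log 2 ≤ 1 := by
            have := Real.log_two_lt_d9; linarith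
          have h4 : (0 : ℝ) ≤ θ := by positivity
          nlinarith
        have h5 : (2 : ℝ) ≤ Real.exp 1 := by
          have := Real.exp_one_gt_d9; linarith
        rw [Real.exp_add]
        have h6 : (2 : ℝ) * Real.exp (θ) ≤ Real.exp 1 * Real.exp (θ) :=
          mul_le_mul_of_nonneg_right h5 (Real.exp_pos _).le
        linarith
      have h2 : (1 - ε) ^ s ≤ Real.exp (-(ε * s)) := by
        have h3 : 1 - ε ≤ Real.exp (-ε) := by
          have := Real.add_one_le_exp (-ε); linarith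
        calc (1 - ε) ^ s ≤ (Real.exp (-ε)) ^ s := pow_le_pow_left₀ (by linarith) h3 _
          _ = Real.exp (-(ε * s)) := by rw [← Real.exp_nat_mul]; congr 1; ring
      calc (T'.card : ℝ) ^ 2 * (1 - ε) ^ s ≤
          (Real.exp (1 + θ)) ^ 2 * Real.exp (-(ε * s)) :=
            mul_le_mul (pow_le_pow_left₀ (Nat.cast_nonneg _) h1 _) h2
              (pow_nonneg (by linarith) _) (by positivity)
        _ = Real.exp (2 * (1 + θ) + -(ε * s)) := by
            rw [← Real.exp_nat_mul, ← Real.exp_add]; norm_num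
        _ < 1 := by
            rw [Real.exp_lt_one_iff]
            linarith
    obtain ⟨Z, hZY, hZ⟩ := distinguish G T' Y s ε hε1
      (fun a ha b hb hab => hTs a (hT'T ha) b (hT'T hb) hab) hY hcount
    have hZi : (Finset.univ.image Z).card ≤ s := by
      refine Finset.card_image_le.trans ?_
      simp
    obtain ⟨R, hZR, hRY, hRc⟩ := Finset.exists_subsuperset_card_eq
      (s := Finset.univ.image Z) (t := Y) (n := s)
      (by intro z hz; obtain ⟨i, _, rfl⟩ := Finset.mem_image.mp hz; exact hZY i) hZi hsY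
    have h3 := trace_count G T' R j
      (by
        intro a ha b hb hab
        obtain ⟨i, hi⟩ := hZ a ha b hb hab
        exact ⟨Z i, hZR (Finset.mem_image_of_mem _ (Finset.mem_univ _)), hi⟩)
      (by
        intro P hP hPs
        rw [hRc]
        apply hsh P (hP.trans hRY)
        intro Q hQ
        obtain ⟨a, ha, h⟩ := hPs Q hQ
        exact ⟨a, hTX (hT'T ha), h⟩)
    rw [hRc, hT'c] at h3
    push_cast at h3
    linarith
  -- a large cluster
  have hTne : T.Nonempty := by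
    obtain ⟨x, hx⟩ := hX
    obtain ⟨a, ha, _⟩ := hTn x hx
    exact ⟨a, ha⟩
  have hTpos : (0 : ℝ) < T.card := by exact_mod_cast hTne.card_pos
  choose! g hgT hg using hTn
  obtain ⟨a, haT, ha⟩ := Finset.exists_le_card_fiber_of_nsmul_le_card_of_maps_to
    (b := (X.card : ℝ) / T.card) (f := g) hgT hTne (by
      rw [nsmul_eq_mul, mul_div_cancel₀ _ hTpos.ne'])
  set A := X.filter (fun x => g x = a) with hA
  have hAc : (X.card : ℝ) ≤ 2 ^ (θ) * A.card := by
    rw [div_le_iff₀ hTpos] at ha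
    calc (X.card : ℝ) ≤ A.card * T.card := ha
      _ ≤ A.card * 2 ^ (θ) := mul_le_mul_of_nonneg_left hT (Nat.cast_nonneg _)
      _ = _ := mul_comm _ _
  have hAd : ∀ x ∈ A, (dis G Y x a : ℝ) < ε * Y.card := by
    intro x hx
    obtain ⟨hxX, hxa⟩ := Finset.mem_filter.mp hx
    have := hg x hxX
    rwa [hxa] at this
  have hsplit : (Y.filter (fun y => G.Adj a y)).card + (Y.filter (fun y => ¬ G.Adj a y)).card =
      Y.card := Finset.card_filter_add_card_filter_not _
  rcases le_total (Y.filter (fun y => ¬ G.Adj a y)).card (Y.filter (fun y => G.Adj a y)).card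
    with h | h
  · refine ⟨A, Finset.filter_subset _ _, Y.filter (fun y => G.Adj a y), Finset.filter_subset _ _,
      hAc, by omega, Or.inl ?_⟩
    intro x hx
    have h1 : (((Y.filter (fun y => G.Adj a y)).filter (fun y => ¬ G.Adj x y)).card : ℝ) ≤
        dis G Y x a := by
      have : ((Y.filter (fun y => G.Adj a y)).filter (fun y => ¬ G.Adj x y)).card ≤
          dis G Y x a := by
        apply Finset.card_le_card
        intro y hy
        simp only [Finset.mem_filter] at hy ⊢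
        tauto
      exact_mod_cast this
    have h2 : (Y.card : ℝ) ≤ 2 * (Y.filter (fun y => G.Adj a y)).card := by
      have : Y.card ≤ 2 * (Y.filter (fun y => G.Adj a y)).card := by omega
      exact_mod_cast this
    have h3 := hAd x hx
    have h4 := mul_le_mul_of_nonneg_left h2 hε0.le
    linarith
  · refine ⟨A, Finset.filter_subset _ _, Y.filter (fun y => ¬ G.Adj a y),
      Finset.filter_subset _ _, hAc, by omega, Or.inr ?_⟩
    intro x hx
    have h1 : (((Y.filter (fun y => ¬ G.Adj a y)).filter (fun y => G.Adj x y)).card : ℝ) ≤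
        dis G Y x a := by
      have : ((Y.filter (fun y => ¬ G.Adj a y)).filter (fun y => G.Adj x y)).card ≤
          dis G Y x a := by
        apply Finset.card_le_card
        intro y hy
        simp only [Finset.mem_filter] at hy ⊢
        tauto
      exact_mod_cast this
    have h2 : (Y.card : ℝ) ≤ 2 * (Y.filter (fun y => ¬ G.Adj a y)).card := by
      have : Y.card ≤ 2 * (Y.filter (fun y => ¬ G.Adj a y)).card := by omega
      exact_mod_cast this
    have h3 := hAd x hx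
    have h4 := mul_le_mul_of_nonneg_left h2 hε0.le
    linarith

/-- the shattering theorem with explicit bounds -/
theorem explicit (d k : ℕ) (hd : 1 ≤ d) (hdk : d ≤ k) {V : Type} [Fintype V] [DecidableEq V]
    (G : SimpleGraph V) [DecidableRel G.Adj] (hcl : G.CliqueFree k) (hind : Gᶜ.CliqueFree k)
    (hV : 2 ^ (98 * d * (Nat.log 2 (k / d) + 1) ^ 2) ≤ Fintype.card V) :
    ∃ S : Finset V, d ≤ S.card ∧ ∀ Q ⊆ S, ∃ v, v ∉ S ∧ ∀ y ∈ S, (G.Adj v y ↔ y ∈ Q) := by
  by_contra hcon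
  push Not at hcon
  set e : ℕ := Nat.log 2 (k / d) + 1 with he
  have he1 : 1 ≤ e := by omega
  have hk : 1 ≤ k := hd.trans hdk
  have hkR : (0 : ℝ) < k := by exact_mod_cast hk
  have hkd : k < 2 ^ e * d := by
    have h1 : k / d < 2 ^ e := Nat.lt_pow_succ_log_self (by norm_num) _
    rwa [Nat.div_lt_iff_lt_mul (by omega)] at h1
  have hkdR : (k : ℝ) < 2 ^ e * d := by exact_mod_cast hkd
  have h2e : (0 : ℝ) < 2 ^ e := by positivity
  set f : ℕ := e + 2 with hf
  set j : ℕ := 2 * f + 10 with hj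
  have hdR : (1 : ℝ) ≤ d := by exact_mod_cast hd
  have heR : (1 : ℝ) ≤ e := by exact_mod_cast he1
  have hde : (d : ℝ) ≤ d * e := by nlinarith
  have hed : (e : ℝ) ≤ d * e := by nlinarith
  have h1de : (1 : ℝ) ≤ d * e := by nlinarith
  set E₀ : ℝ := 20 * (d * e) with hE₀
  set E₁ : ℝ := 26 * (d * e) with hE₁
  have hkκ : (k : ℝ) * ((f + 2) / 2 ^ f) ≤ d * (e + 4) := by
    have h1 : (2 : ℝ) ^ f = 4 * 2 ^ e := by rw [hf, pow_add]; ring
    rw [h1, ← mul_div_assoc, div_le_iff₀ (by positivity), hf]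
    push_cast
    have h2 : (k : ℝ) * (e + 2 + 2) ≤ (2 ^ e * d) * (e + 2 + 2) :=
      mul_le_mul_of_nonneg_right hkdR.le (by positivity)
    have h3 : (0 : ℝ) ≤ (2 ^ e * d) * (e + 4) := by positivity
    calc (k : ℝ) * (e + 2 + 2) ≤ (2 ^ e * d) * (e + 2 + 2) := h2
      _ ≤ _ := by nlinarith
  have hσ₀ : E₀ / k * k = E₀ := div_mul_cancel₀ _ hkR.ne'
  have hμ : E₁ / k * k = E₁ := div_mul_cancel₀ _ hkR.ne'
  have hF₀ : (0 : ℝ) < ((k / 2 ^ e : ℕ) + 1 : ℝ) ^ 2 := by positivity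
  have hpairs : ∀ U : Finset V, (2 : ℝ) ^ (E₀ / k * k) ≤ U.card → ∃ A ⊆ U, ∃ B ⊆ U,
      Disjoint A B ∧ (U.card : ℝ) ≤ (4 * 2 ^ (d * (2 * e + 16))) * A.card ∧
      (U.card : ℝ) ≤ (4 * 2 ^ (d * (2 * e + 16))) * B.card ∧
      ((2 ^ (f + 2) * ∑ x ∈ A, ∑ y ∈ B, w G x y < A.card * B.card) ∨
        (2 ^ (f + 2) * ∑ x ∈ A, ∑ y ∈ B, w Gᶜ x y < A.card * B.card)) := by
    intro U hU
    rw [hσ₀] at hU
    have hU20 : (2 : ℝ) ^ (20 : ℕ) ≤ U.card := by
      refine le_trans ?_ hU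
      rw [← Real.rpow_natCast]
      apply Real.rpow_le_rpow_of_exponent_le (by norm_num)
      push_cast; rw [hE₀]; linarith
    have hU2 : 2 ≤ U.card := by
      have h20 : (2 : ℝ) ≤ 2 ^ (20 : ℕ) := by norm_num
      have : (2 : ℝ) ≤ U.card := h20.trans hU20
      exact_mod_cast this
    obtain ⟨X, hXU, hXc⟩ := Finset.exists_subset_card_eq (s := U) (n := U.card / 2) (by omega)
    obtain ⟨Y, hYU, hYc⟩ := Finset.exists_subset_card_eq (s := U \ X) (n := U.card / 2) (by
      rw [Finset.card_sdiff_of_subset hXU]; omega)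
    have hYU' : Y ⊆ U := hYU.trans Finset.sdiff_subset
    have hXY : Disjoint X Y := by
      rw [Finset.disjoint_left]
      intro x hx hy
      exact (Finset.mem_sdiff.mp (hYU hy)).2 hx
    have hX4 : U.card ≤ 4 * X.card := by omega
    have hY4 : U.card ≤ 4 * Y.card := by omega
    have hXpos : 0 < X.card := by omega
    have hYpos : 0 < Y.card := by omega
    have hsY : 2 ^ j * d ≤ Y.card := by
      have h1 : ((2 ^ j * d : ℕ) : ℝ) * 4 ≤ U.card := by
        refine le_trans ?_ hU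
        have h2 : (d : ℝ) ≤ 2 ^ d := by
          have : d ≤ 2 ^ d := Nat.lt_two_pow_self.le
          exact_mod_cast this
        calc ((2 ^ j * d : ℕ) : ℝ) * 4 = 2 ^ j * d * 2 ^ 2 := by push_cast; norm_num
          _ ≤ 2 ^ j * 2 ^ d * 2 ^ 2 := by
              apply mul_le_mul_of_nonneg_right _ (by positivity)
              exact mul_le_mul_of_nonneg_left h2 (by positivity)
          _ = 2 ^ (j + d + 2) := by
              rw [pow_add (2 : ℝ) (j + d) 2, pow_add (2 : ℝ) j d]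
          _ = (2 : ℝ) ^ ((j + d + 2 : ℕ) : ℝ) := (Real.rpow_natCast _ _).symm
          _ ≤ _ := by
              apply Real.rpow_le_rpow_of_exponent_le (by norm_num)
              rw [hj, hf, hE₀]; push_cast; linarith
      have h2 : 2 ^ j * d * 4 ≤ U.card := by exact_mod_cast h1
      omega
    have hθ : ((2 ^ j * d : ℕ) : ℝ) * ((j + 2) / 2 ^ j) = d * (j + 2) := by
      push_cast; field_simp
    have hε : (0 : ℝ) < 1 / 2 ^ (f + 3) := by positivity
    obtain ⟨A, hAX, B, hBY, hAc, hBc, hAB⟩ := exists_pair G X Y (2 ^ j * d) j (1 / 2 ^ (f + 3))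
      hε (by rw [div_le_one (by positivity)]; exact one_le_pow₀ (by norm_num))
      (Finset.card_pos.mp hXpos) (Finset.card_pos.mp hYpos) hsY
      (by
        rw [hθ]
        push_cast
        have h1 : (1 : ℝ) / 2 ^ (f + 3) * (2 ^ j * d) = 2 ^ (f + 7) * d := by
          have : (2 : ℝ) ^ j = 2 ^ (f + 3) * 2 ^ (f + 7) := by
            rw [← pow_add]; congr 1; rw [hj]; ring
          rw [this]; field_simp
        rw [h1]
        have h2 : (f : ℝ) < 2 ^ f := by exact_mod_cast Nat.lt_two_pow_self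
        have h3 : (2 : ℝ) ^ (f + 7) = 128 * 2 ^ f := by rw [pow_add]; ring
        have h4 : (1 : ℝ) ≤ 2 ^ f := one_le_pow₀ (by norm_num)
        have h5 : (j : ℝ) = 2 * f + 10 := by rw [hj]; push_cast; ring
        rw [h3, h5]
        have h6 : 2 * (2 * (f : ℝ) + 10 + 2) + 2 < 128 * 2 ^ f := by linarith
        calc 2 * (1 + (d : ℝ) * (2 * f + 10 + 2)) ≤ d * (2 * (2 * (f : ℝ) + 10 + 2) + 2) := by
              linarith
          _ < d * (128 * 2 ^ f) := mul_lt_mul_of_pos_left h6 (by linarith)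
          _ = _ := by ring)
      (by
        intro P hPY hP
        apply Nat.mul_le_mul_left
        by_contra hbig
        obtain ⟨Q, hQ, h⟩ := hcon P (by omega)
        obtain ⟨a, haX, ha⟩ := hP Q hQ
        have haP : a ∉ P := fun h' => Finset.disjoint_left.mp hXY haX (hPY h')
        obtain ⟨y, hy, hyy⟩ := h a haP
        have := ha y hy
        tauto)
    rw [hθ] at hAc
    have hABd : Disjoint A B :=
      Finset.disjoint_of_subset_left hAX (Finset.disjoint_of_subset_right hBY hXY)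
    have hD : (2 : ℝ) ^ ((d : ℝ) * (j + 2)) = 2 ^ (d * (2 * e + 16)) := by
      rw [← Real.rpow_natCast]; congr 1; rw [hj, hf]; push_cast; ring
    rw [hD] at hAc
    have hX4R : (U.card : ℝ) ≤ 4 * X.card := by exact_mod_cast hX4
    have hY4R : (U.card : ℝ) ≤ 4 * Y.card := by exact_mod_cast hY4
    have hBcR : (Y.card : ℝ) ≤ 2 * B.card := by exact_mod_cast hBc
    have hAcU : (U.card : ℝ) ≤ (4 * 2 ^ (d * (2 * e + 16))) * A.card := by linarith
    have hBcU : (U.card : ℝ) ≤ (4 * 2 ^ (d * (2 * e + 16))) * B.card := by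
      have h1 : (2 : ℝ) ≤ 2 ^ (d * (2 * e + 16)) := by
        calc (2 : ℝ) = 2 ^ 1 := (pow_one _).symm
          _ ≤ _ := pow_le_pow_right₀ (by norm_num) (by nlinarith)
      have h2 := mul_le_mul_of_nonneg_right h1 (Nat.cast_nonneg (α := ℝ) B.card)
      linarith
    have hUpos : (0 : ℝ) < U.card := by
      have : 0 < U.card := by omega
      exact_mod_cast this
    have hApos : 0 < A.card := by
      rcases Nat.eq_zero_or_pos A.card with h0 | h0
      · rw [h0, Nat.cast_zero, mul_zero] at hAcU; linarith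
      · exact h0
    have hBpos : 0 < B.card := by omega
    have hAne : A.Nonempty := Finset.card_pos.mp hApos
    refine ⟨A, hAX.trans hXU, B, hBY.trans hYU', hABd, hAcU, hBcU, ?_⟩
    have h2f : (2 : ℝ) ^ (f + 2) * (2 * (1 / 2 ^ (f + 3))) = 1 := by
      rw [pow_succ _ (f + 2)]; field_simp
    rcases hAB with h | h
    · left
      have h1 : ((∑ x ∈ A, ∑ y ∈ B, w G x y : ℕ) : ℝ) <
          ∑ x ∈ A, (2 * (1 / 2 ^ (f + 3)) * (B.card : ℝ)) := by
        push_cast
        apply Finset.sum_lt_sum_of_nonempty hAne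
        intro x hx
        refine lt_of_le_of_lt (le_of_eq ?_) (h x hx)
        rw [Finset.card_filter]
        push_cast
        refine Finset.sum_congr rfl fun y _ => ?_
        unfold w
        by_cases h2 : G.Adj x y <;> simp [h2]
      rw [Finset.sum_const, nsmul_eq_mul] at h1
      have h3 := mul_lt_mul_of_pos_left h1 (show (0 : ℝ) < 2 ^ (f + 2) by positivity)
      have h4 : (2 : ℝ) ^ (f + 2) * ((A.card : ℝ) * (2 * (1 / 2 ^ (f + 3)) * B.card)) =
          A.card * B.card := by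
        calc (2 : ℝ) ^ (f + 2) * ((A.card : ℝ) * (2 * (1 / 2 ^ (f + 3)) * B.card)) =
            ((2 : ℝ) ^ (f + 2) * (2 * (1 / 2 ^ (f + 3)))) * (A.card * B.card) := by ring
          _ = _ := by rw [h2f, one_mul]
      rw [h4] at h3
      exact_mod_cast h3
    · right
      have h1 : ((∑ x ∈ A, ∑ y ∈ B, w Gᶜ x y : ℕ) : ℝ) <
          ∑ x ∈ A, (2 * (1 / 2 ^ (f + 3)) * (B.card : ℝ)) := by
        push_cast
        apply Finset.sum_lt_sum_of_nonempty hAne
        intro x hx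
        refine lt_of_le_of_lt (le_of_eq ?_) (h x hx)
        rw [Finset.card_filter]
        push_cast
        refine Finset.sum_congr rfl fun y hy => ?_
        have hne : x ≠ y := fun h' => Finset.disjoint_left.mp hABd hx (h' ▸ hy)
        unfold w
        by_cases h2 : G.Adj x y <;> simp [h2, hne]
      rw [Finset.sum_const, nsmul_eq_mul] at h1
      have h3 := mul_lt_mul_of_pos_left h1 (show (0 : ℝ) < 2 ^ (f + 2) by positivity)
      have h4 : (2 : ℝ) ^ (f + 2) * ((A.card : ℝ) * (2 * (1 / 2 ^ (f + 3)) * B.card)) =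
          A.card * B.card := by
        calc (2 : ℝ) ^ (f + 2) * ((A.card : ℝ) * (2 * (1 / 2 ^ (f + 3)) * B.card)) =
            ((2 : ℝ) ^ (f + 2) * (2 * (1 / 2 ^ (f + 3)))) * (A.card * B.card) := by ring
          _ = _ := by rw [h2f, one_mul]
      rw [h4] at h3
      exact_mod_cast h3
  have hDμ : 2 * 2 ^ ((k : ℝ) * ((f + 2) / 2 ^ f)) * (4 * 2 ^ (d * (2 * e + 16))) ≤
      (2 : ℝ) ^ (E₁ / k * k) := by
    rw [hμ]
    calc 2 * 2 ^ ((k : ℝ) * ((f + 2) / 2 ^ f)) * (4 * (2 : ℝ) ^ (d * (2 * e + 16))) =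
        2 ^ (3 : ℝ) * 2 ^ ((k : ℝ) * ((f + 2) / 2 ^ f)) *
          2 ^ (((d * (2 * e + 16) : ℕ)) : ℝ) := by
          have : (2 : ℝ) ^ (3 : ℝ) = 8 := by
            rw [show (3 : ℝ) = ((3 : ℕ) : ℝ) by norm_num, Real.rpow_natCast]; norm_num
          rw [this, Real.rpow_natCast]; ring
      _ = 2 ^ (3 + (k : ℝ) * ((f + 2) / 2 ^ f) + ((d * (2 * e + 16) : ℕ) : ℝ)) := by
          rw [← Real.rpow_add (by norm_num), ← Real.rpow_add (by norm_num)]
      _ ≤ _ := by
          apply Real.rpow_le_rpow_of_exponent_le (by norm_num)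
          rw [hE₁]; push_cast
          nlinarith
  have hmain := induct G f k hcl hind (E₀ / k) (E₁ / k) (((k / 2 ^ e : ℕ) + 1 : ℝ) ^ 2)
    (4 * 2 ^ (d * (2 * e + 16))) (by positivity) hF₀ (by positivity) hDμ hpairs
    (fun U hU => base_case G e k hk hcl hind U (by
      refine le_trans ?_ hU
      apply Real.rpow_le_rpow_of_exponent_le (by norm_num)
      rw [hσ₀, hE₀, div_mul_eq_mul_div, div_le_iff₀ h2e]
      have h1 : ((e : ℝ) + 4) * k ≤ (e + 4) * (2 ^ e * d) :=
        mul_le_mul_of_nonneg_left hkdR.le (by positivity)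
      have h2 : ((e : ℝ) + 4) * d ≤ 20 * (d * e) := by nlinarith
      have h3 := mul_le_mul_of_nonneg_right h2 h2e.le
      linarith))
  obtain ⟨R, _, S, _, hRc, hSc, hprod⟩ := hmain (2 * e + 1) Finset.univ (by
    rw [Finset.card_univ]
    have h1 : (2 : ℝ) ^ (((98 * d * e ^ 2 : ℕ)) : ℝ) ≤ Fintype.card V := by
      rw [Real.rpow_natCast]; exact_mod_cast hV
    refine le_trans ?_ h1
    apply Real.rpow_le_rpow_of_exponent_le (by norm_num)
    rw [add_mul, mul_assoc, hσ₀, hμ, hE₀, hE₁]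
    push_cast
    have h3 : (d : ℝ) * e ≤ d * e ^ 2 := by nlinarith
    nlinarith)
  have hR : R.card < k := clique_lt hcl hRc
  have hS : S.card < k := clique_lt hind (by simpa using hSc)
  have h2ef : (2 * (e : ℝ) + 1) ≤ 2 ^ f := by
    have h1 : (e : ℝ) < 2 ^ e := by exact_mod_cast Nat.lt_two_pow_self
    have h2 : (2 : ℝ) ^ f = 4 * 2 ^ e := by rw [hf, pow_add]; ring
    rw [h2]; linarith
  have h4e : ((2 : ℝ) ^ e) ^ 2 ≤ (2 - 1 / 2 ^ f) ^ (2 * e + 1) := by
    have h1 : (2 : ℝ) - 1 / 2 ^ f = 2 * (1 + -(1 / (2 * 2 ^ f))) := by field_simp; ring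
    rw [h1, mul_pow]
    have h2 : -2 ≤ -(1 / (2 * (2 : ℝ) ^ f)) := by
      have h3 : (1 : ℝ) / (2 * 2 ^ f) ≤ 1 := by
        rw [div_le_one (by positivity)]
        have : (1 : ℝ) ≤ 2 ^ f := one_le_pow₀ (by norm_num)
        linarith
      linarith
    have h3 := one_add_mul_le_pow h2 (2 * e + 1)
    have h4 : (1 : ℝ) / 2 ≤ 1 + ((2 * e + 1 : ℕ) : ℝ) * -(1 / (2 * 2 ^ f)) := by
      have h5 : ((2 * e + 1 : ℕ) : ℝ) * (1 / (2 * 2 ^ f)) ≤ 1 / 2 := by
        push_cast
        rw [mul_one_div, div_le_iff₀ (by positivity)]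
        linarith
      linarith
    have h5 : (2 : ℝ) ^ (2 * e + 1) = ((2 : ℝ) ^ e) ^ 2 * 2 := by
      rw [pow_succ, ← pow_mul, mul_comm 2 e]
    rw [h5]
    have h6 := h4.trans h3
    have h7 : (0 : ℝ) < ((2 : ℝ) ^ e) ^ 2 := by positivity
    nlinarith
  have h6 : ((2 : ℝ) ^ e) ^ 2 * ((k / 2 ^ e : ℕ) + 1 : ℝ) ^ 2 ≤ (R.card : ℝ) * S.card :=
    (mul_le_mul_of_nonneg_right h4e hF₀.le).trans hprod
  have h7 : k < 2 ^ e * (k / 2 ^ e + 1) := by
    have := Nat.lt_mul_div_succ k (show 0 < 2 ^ e by positivity)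
    simpa using this
  have h7' : (k : ℝ) < 2 ^ e * ((k / 2 ^ e : ℕ) + 1) := by exact_mod_cast h7
  have h8 : (k : ℝ) ^ 2 < ((2 : ℝ) ^ e) ^ 2 * ((k / 2 ^ e : ℕ) + 1 : ℝ) ^ 2 := by
    rw [← mul_pow]
    exact pow_lt_pow_left₀ h7' hkR.le (by norm_num)
  have h9 : (R.card : ℝ) * S.card ≤ k * k := by
    have a1 : (R.card : ℝ) ≤ k := by exact_mod_cast hR.le
    have a2 : (S.card : ℝ) ≤ k := by exact_mod_cast hS.le
    exact mul_le_mul a1 a2 (Nat.cast_nonneg _) hkR.le
  have h10 : (k : ℝ) ^ 2 = k * k := sq _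
  linarith

/-- Let `1 ≤ d`, `2 d ≤ k`. Every graph on at least `2^(200 d (⌊log₂(k/d)⌋ + 1)^2)` vertices without
`k`-clique and without independent `k`-set has a set `S` of `d` vertices such that each subset `Q`
of `S` is the set of neighbours in `S` of at least `2^d` vertices outside `S`. -/
theorem result (d k : ℕ) (hd : 1 ≤ d) (hdk : 2 * d ≤ k) (V : Type) [Fintype V] [DecidableEq V]
    (G : SimpleGraph V) [DecidableRel G.Adj] (hcl : ∀ S, ¬ G.IsNClique k S)
    (hind : ∀ S, ¬ G.IsNIndepSet k S)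
    (hV : 2 ^ (200 * d * (Nat.log 2 (k / d) + 1) ^ 2) ≤ Fintype.card V) :
    ∃ S : Finset V, S.card = d ∧ ∀ Q ⊆ S, 2 ^ d ≤
      (Finset.univ.filter (fun v => v ∉ S ∧ ∀ y ∈ S, (G.Adj v y ↔ y ∈ Q))).card := by
  have hind' : Gᶜ.CliqueFree k := by
    intro S hS
    exact hind S (by simpa using hS)
  obtain ⟨S₀', hS₀', hsh'⟩ := explicit (2 * d) k (by omega) hdk G hcl hind' (by
    refine le_trans ?_ hV
    apply Nat.pow_le_pow_right (by norm_num)
    have h1 : k / (2 * d) ≤ k / d := Nat.div_le_div_left (by omega) (by omega)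
    have h2 : Nat.log 2 (k / (2 * d)) ≤ Nat.log 2 (k / d) := Nat.log_mono_right h1
    have h3 : (Nat.log 2 (k / (2 * d)) + 1) ^ 2 ≤ (Nat.log 2 (k / d) + 1) ^ 2 :=
      Nat.pow_le_pow_left (by omega) 2
    calc 98 * (2 * d) * (Nat.log 2 (k / (2 * d)) + 1) ^ 2 ≤
        98 * (2 * d) * (Nat.log 2 (k / d) + 1) ^ 2 := Nat.mul_le_mul_left _ h3
      _ ≤ _ := Nat.mul_le_mul_right _ (by omega))
  obtain ⟨S₀, hSS₀, hS₀⟩ := Finset.exists_subset_card_eq hS₀'
  have hsh : ∀ Q ⊆ S₀, ∃ v, v ∉ S₀ ∧ ∀ y ∈ S₀, (G.Adj v y ↔ y ∈ Q) := by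
    intro Q hQ
    obtain ⟨v, hv, h⟩ := hsh' Q (hQ.trans hSS₀)
    exact ⟨v, fun h' => hv (hSS₀ h'), fun y hy => h y (hSS₀ hy)⟩
  obtain ⟨S, hSS, hSc⟩ := Finset.exists_subset_card_eq (s := S₀) (n := d) (by omega)
  refine ⟨S, hSc, fun Q hQ => ?_⟩
  have : Nonempty V := ⟨(hsh S₀ Finset.Subset.rfl).choose⟩
  choose! v hv1 hv2 using hsh
  have hcard : (S₀ \ S).powerset.card ≤
      (Finset.univ.filter (fun v => v ∉ S ∧ ∀ y ∈ S, (G.Adj v y ↔ y ∈ Q))).card := by
    apply Finset.card_le_card_of_injOn (fun W => v (Q ∪ W))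
    · intro W hW
      have hW' : W ⊆ S₀ \ S := Finset.mem_powerset.mp (Finset.mem_coe.mp hW)
      have hQW : Q ∪ W ⊆ S₀ :=
        Finset.union_subset (hQ.trans hSS) (hW'.trans Finset.sdiff_subset)
      rw [Finset.mem_coe, Finset.mem_filter]
      refine ⟨Finset.mem_univ _, fun hmem => hv1 _ hQW (hSS hmem), fun y hy => ?_⟩
      rw [hv2 _ hQW y (hSS hy), Finset.mem_union]
      constructor
      · rintro (h' | h')
        · exact h'
        · exact absurd hy (Finset.mem_sdiff.mp (hW' h')).2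
      · exact Or.inl
    · intro W hW W' hW' hWW
      have h1 : W ⊆ S₀ \ S := Finset.mem_powerset.mp (Finset.mem_coe.mp hW)
      have h2 : W' ⊆ S₀ \ S := Finset.mem_powerset.mp (Finset.mem_coe.mp hW')
      have hQW : Q ∪ W ⊆ S₀ :=
        Finset.union_subset (hQ.trans hSS) (h1.trans Finset.sdiff_subset)
      have hQW' : Q ∪ W' ⊆ S₀ :=
        Finset.union_subset (hQ.trans hSS) (h2.trans Finset.sdiff_subset)
      have key : ∀ y ∈ S₀ \ S, (y ∈ W ↔ y ∈ W') := by
        intro y hy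
        obtain ⟨hy0, hyS⟩ := Finset.mem_sdiff.mp hy
        have hyQ : y ∉ Q := fun h' => hyS (hQ h')
        have e1 := hv2 _ hQW y hy0
        have e2 := hv2 _ hQW' y hy0
        have e3 : v (Q ∪ W) = v (Q ∪ W') := hWW
        rw [e3] at e1
        have e4 : y ∈ Q ∪ W ↔ y ∈ Q ∪ W' := e1.symm.trans e2
        simpa [Finset.mem_union, hyQ] using e4
      ext y
      constructor
      · intro hy; exact (key y (h1 hy)).mp hy
      · intro hy; exact (key y (h2 hy)).mpr hy
  refine le_trans ?_ hcard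
  rw [Finset.card_powerset, Finset.card_sdiff_of_subset hSS]
  exact Nat.pow_le_pow_right (by norm_num) (by omega)

end Pool.Agent.Results.MP_28724c_co.VCDimension
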